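import Mathlib

open Complex Set Filter Topology Metric MeasureTheory
open scoped Real

namespace Pool.Agent.Results.MP_1ca924_an.Main

/-- The truncation `min(u, N)` as a real-valued function. -/
noncomputable def cut (u : ℂ → EReal) (N : ℝ) (z : ℂ) : ℝ := (min (u z) (N : EReal)).toReal

/-- `u : U → (-∞, +∞]` is hyperharmonic in the open set `U`: it is lower semicontinuous, never `-∞`,
and satisfies the local super-mean-value property: every `a ∈ U` has a radius `ρ` such that
the mean of `u` over the circle `|z - a| = r` is at most `u(a)` for `0 < r < ρ`. The mean of the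
lower semicontinuous function `u` is the supremum over `N` of the means of `min(u, N)`. -/
def Hyperharmonic (U : Set ℂ) (u : ℂ → EReal) : Prop :=
  LowerSemicontinuousOn u U ∧ (∀ z ∈ U, u z ≠ ⊥) ∧
  ∀ a ∈ U, ∃ ρ > 0, closedBall a ρ ⊆ U ∧ ∀ r ∈ Ioo 0 ρ, ∀ N : ℝ,
    ((Real.circleAverage (cut u N) a r : ℝ) : EReal) ≤ u a

/-- The upper class of the boundary function `f`: the hyperharmonic functions `u` in `U` that are
bounded below and satisfy `liminf u ≥ f(ζ)` at every boundary point `ζ`. -/
def UpperClass (U : Set ℂ) (f : ℂ → EReal) : Set (ℂ → EReal) :=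
  {u | Hyperharmonic U u ∧ (∃ K : ℝ, ∀ z ∈ U, (K : EReal) ≤ u z) ∧
    ∀ ζ ∈ frontier U, f ζ ≤ liminf u (𝓝[U] ζ)}

/-- The upper PWB solution of the Dirichlet problem with boundary function `f`. -/
noncomputable def upperPWB (U : Set ℂ) (f : ℂ → EReal) (z : ℂ) : EReal :=
  ⨅ u ∈ UpperClass U f, u z

/-- The lower PWB solution (minus the upper solution for `-f`). -/
noncomputable def lowerPWB (U : Set ℂ) (f : ℂ → EReal) (z : ℂ) : EReal :=
  -upperPWB U (fun ζ => -f ζ) z

/-- `f` is resolutive for `U` and `h` is its PWB solution: the upper and lower solutions both equal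
the harmonic function `h` in `U`. Only the values of `f` on the boundary of `U` matter. -/
def IsPWB (U : Set ℂ) (f : ℂ → EReal) (h : ℂ → ℝ) : Prop :=
  InnerProductSpace.HarmonicOnNhd h U ∧
    ∀ z ∈ U, upperPWB U f z = (h z : EReal) ∧ lowerPWB U f z = (h z : EReal)

/-- `y` is `B`-regular for `U`. -/
def BRegular (U : Set ℂ) (y : ℂ) : Prop :=
  ∀ (f : ℂ → EReal) (h : ℂ → ℝ), IsPWB U f h →
    (∃ R > 0, ∃ M : ℝ, ∀ ζ ∈ ball y R ∩ frontier U, ((-M : ℝ) : EReal) ≤ f ζ ∧ f ζ ≤ (M : EReal)) →
    ∃ r > 0, ∃ C : ℝ, ∀ z ∈ ball y r ∩ U, |h z| ≤ C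

/-- `y` is `lB`-regular for `U`. -/
def LBRegular (U : Set ℂ) (y : ℂ) : Prop :=
  ∃ r : ℕ → ℝ, (∀ m, 0 < r m) ∧ Tendsto r atTop (𝓝 0) ∧ ∀ m, BRegular (ball y (r m) ∩ U) y

/-- Local super-mean-value property for a real-valued function, together with lower
semicontinuity and boundedness. -/
structure SupR (v : ℂ → ℝ) (U : Set ℂ) : Prop where
  lsc : LowerSemicontinuousOn v U
  mean : ∀ a ∈ U, ∃ ρ > 0, closedBall a ρ ⊆ U ∧ ∀ r ∈ Ioo 0 ρ, Real.circleAverage v a r ≤ v a
  bdd : ∃ K : ℝ, ∀ z ∈ U, |v z| ≤ K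

lemma circleIntegrable_of_lsc {v : ℂ → ℝ} {U : Set ℂ} (hl : LowerSemicontinuousOn v U)
    {K : ℝ} (hb : ∀ z ∈ U, |v z| ≤ K) {a : ℂ} {r : ℝ} (hr : 0 ≤ r) (hs : sphere a r ⊆ U) :
    CircleIntegrable v a r := by
  have hmaps : ∀ θ : ℝ, circleMap a r θ ∈ U := fun θ => hs (circleMap_mem_sphere a hr θ)
  have h1 : LowerSemicontinuous (fun θ => v (circleMap a r θ)) := by
    intro θ y hy
    have h2 := hl (circleMap a r θ) (hmaps θ) y hy
    have h3 : Tendsto (fun θ' => circleMap a r θ') (𝓝 θ) (𝓝[U] (circleMap a r θ)) := by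
      apply tendsto_nhdsWithin_iff.mpr
      exact ⟨(continuous_circleMap a r).continuousAt, Eventually.of_forall hmaps⟩
    exact h3.eventually h2
  have h4 : Measurable (fun θ => v (circleMap a r θ)) := h1.measurable
  have h5 : IntegrableOn (fun θ => v (circleMap a r θ)) (Set.uIoc 0 (2 * π)) := by
    apply Measure.integrableOn_of_bounded (M := K)
    · rw [Set.uIoc_of_le (by positivity)]
      exact measure_Ioc_lt_top.ne
    · exact h4.aestronglyMeasurable
    · exact Eventually.of_forall (fun θ => by simpa using hb _ (hmaps θ))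
  rw [CircleIntegrable, intervalIntegrable_iff]
  exact h5

lemma avg_normSq (a : ℂ) (r : ℝ) (c e : ℝ) :
    Real.circleAverage (fun z => c + e * ‖z‖ ^ 2) a r = c + e * (‖a‖ ^ 2 + r ^ 2) := by
  set A : ℂ → ℂ := fun z => ((c + e * (‖a‖ ^ 2 + r ^ 2) : ℝ) : ℂ) +
    2 * (e : ℂ) * ((starRingEnd ℂ) a * (z - a)) with hA
  have hAd : Differentiable ℂ A := by
    simp only [hA]
    fun_prop
  have hψ : InnerProductSpace.HarmonicOnNhd (fun z => (A z).re) (closedBall a |r|) :=
    fun z _ => (hAd.analyticAt z).harmonicAt_re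
  have h1 : Set.EqOn (fun z : ℂ => c + e * ‖z‖ ^ 2) (fun z => (A z).re) (sphere a |r|) := by
    intro z hz
    have hz' : ‖z - a‖ = |r| := by simpa [dist_eq_norm] using hz
    have hnorm : ‖z‖ ^ 2 = ‖a‖ ^ 2 + 2 * ((starRingEnd ℂ) a * (z - a)).re + r ^ 2 := by
      rw [← sq_abs r, ← hz', ← Complex.normSq_eq_norm_sq, ← Complex.normSq_eq_norm_sq,
        ← Complex.normSq_eq_norm_sq, Complex.normSq_apply, Complex.normSq_apply,
        Complex.normSq_apply]
      simp
      ring
    simp only [hA]
    rw [hnorm, Complex.add_re, Complex.ofReal_re, mul_assoc, Complex.mul_re]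
    simp
    ring
  rw [Real.circleAverage_congr_sphere h1, InnerProductSpace.HarmonicOnNhd.circleAverage_eq hψ]
  show (((c + e * (‖a‖ ^ 2 + r ^ 2) : ℝ) : ℂ) + 2 * (e : ℂ) * ((starRingEnd ℂ) a * (a - a))).re = _
  rw [sub_self, mul_zero, mul_zero, add_zero, Complex.ofReal_re]

/-- The minimum principle. -/
lemma min_principle {v : ℂ → ℝ} {U : Set ℂ} (hU : Bornology.IsBounded U) (hv : SupR v U)
    (hbd : ∀ ζ ∈ frontier U, ∀ ε > 0, ∀ᶠ z in 𝓝[U] ζ, -ε < v z) : ∀ z ∈ U, 0 ≤ v z := by
  by_contra hcon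
  push Not at hcon
  obtain ⟨z0, hz0, hneg⟩ := hcon
  obtain ⟨C, hC0, hC⟩ : ∃ C : ℝ, 0 < C ∧ ∀ z ∈ U, ‖z‖ ^ 2 ≤ C := by
    obtain ⟨R, hR⟩ := hU.exists_norm_le
    refine ⟨R ^ 2 + 1, by positivity, fun z hz => ?_⟩
    have := pow_le_pow_left₀ (norm_nonneg z) (hR z hz) 2
    linarith
  set ε : ℝ := -v z0 / (2 * C) with hε
  have hε0 : 0 < ε := by rw [hε]; apply div_pos <;> linarith
  have hεC : ε * C = -v z0 / 2 := by rw [hε]; field_simp
  set w : ℂ → ℝ := fun z => v z - ε * ‖z‖ ^ 2 with hw
  have hwl : LowerSemicontinuousOn w U := by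
    have h1 : LowerSemicontinuousOn (fun z => v z + (-(ε * ‖z‖ ^ 2))) U := by
      apply hv.lsc.add
      exact (by fun_prop : Continuous fun z : ℂ => -(ε * ‖z‖ ^ 2)).continuousOn.lowerSemicontinuousOn
    simpa [hw, sub_eq_add_neg] using h1
  set S : Set ℂ := {z | z ∈ U ∧ w z ≤ w z0} with hS
  have hSU : S ⊆ U := fun z hz => hz.1
  have hz0S : z0 ∈ S := ⟨hz0, le_rfl⟩
  have hwz0 : w z0 ≤ v z0 := by
    simp only [hw]
    have : 0 ≤ ε * ‖z0‖ ^ 2 := by positivity
    linarith
  have hSc : IsClosed S := by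
    rw [← closure_subset_iff_isClosed]
    intro z hz
    have hzU : z ∈ closure U := closure_mono hSU hz
    have hfreq : ∃ᶠ x in 𝓝 z, x ∈ S := mem_closure_iff_frequently.mp hz
    by_cases hzin : z ∈ U
    · refine ⟨hzin, ?_⟩
      by_contra hlt
      push Not at hlt
      have h1 := hwl z hzin (w z0) hlt
      rw [eventually_nhdsWithin_iff] at h1
      obtain ⟨x, hx1, hx2⟩ := (hfreq.and_eventually h1).exists
      exact absurd (hx2 hx1.1) (not_lt.mpr hx1.2)
    · exfalso
      have hzf : z ∈ frontier U := ⟨hzU, fun h => hzin (interior_subset h)⟩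
      have h1 := hbd z hzf (-v z0 / 4) (by linarith)
      rw [eventually_nhdsWithin_iff] at h1
      obtain ⟨x, hx1, hx2⟩ := (hfreq.and_eventually h1).exists
      have h2 := hx2 hx1.1
      have h3 : ε * ‖x‖ ^ 2 ≤ ε * C := mul_le_mul_of_nonneg_left (hC x hx1.1) hε0.le
      have h4 : w x ≤ w z0 := hx1.2
      simp only [hw] at h4 hwz0
      linarith
  have hScomp : IsCompact S := Metric.isCompact_of_isClosed_isBounded hSc (hU.subset hSU)
  obtain ⟨a, haS, hamin⟩ := (hwl.mono hSU).exists_isMinOn ⟨z0, hz0S⟩ hScomp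
  have haU : a ∈ U := haS.1
  have hmin : ∀ z ∈ U, w a ≤ w z := by
    intro z hz
    by_cases hzS : z ∈ S
    · exact hamin hzS
    · have h1 : w z0 < w z := by
        by_contra h
        push Not at h
        exact hzS ⟨hz, h⟩
      exact haS.2.trans h1.le
  obtain ⟨ρ, hρ, hball, hmean⟩ := hv.mean a haU
  obtain ⟨K, hK⟩ := hv.bdd
  have hr : ρ / 2 ∈ Ioo 0 ρ := ⟨by linarith, by linarith⟩
  have h1 := hmean _ hr
  have hsph : sphere a (ρ / 2) ⊆ U := by
    refine (sphere_subset_closedBall.trans (closedBall_subset_closedBall ?_)).trans hball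
    linarith
  have h2 : Real.circleAverage (fun z => w a + ε * ‖z‖ ^ 2) a (ρ / 2) ≤
      Real.circleAverage v a (ρ / 2) := by
    apply Real.circleAverage_mono
    · apply ContinuousOn.circleIntegrable (by linarith)
      fun_prop
    · exact circleIntegrable_of_lsc hv.lsc hK (by linarith) hsph
    · intro z hz
      rw [abs_of_pos (by linarith : (0 : ℝ) < ρ / 2)] at hz
      have := hmin z (hsph hz)
      simp only [hw] at this ⊢
      linarith
  rw [avg_normSq] at h2
  have h3 : 0 < ε * (ρ / 2) ^ 2 := by positivity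
  simp only [hw] at h2
  nlinarith

/-- Continuous minorants of a lower semicontinuous function on a circle. -/
lemma exists_minorants {v : ℂ → ℝ} {U : Set ℂ} (hl : LowerSemicontinuousOn v U)
    {K : ℝ} (hb : ∀ z ∈ U, |v z| ≤ K) {a : ℂ} {r : ℝ} (hr : 0 < r) (hs : sphere a r ⊆ U)
    {ε : ℝ} (hε : 0 < ε) : ∃ g : ℂ → ℝ, Continuous g ∧ (∀ z ∈ sphere a r, g z ≤ v z) ∧
      Real.circleAverage v a r - ε < Real.circleAverage g a r := by
  have hne : Nonempty (sphere a r) := (NormedSpace.sphere_nonempty.mpr hr.le).to_subtype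
  set g : ℕ → ℂ → ℝ := fun n x => ⨅ y : sphere a r, (v y + n * dist x (y : ℂ)) with hg
  have hbdd : ∀ (n : ℕ) (x : ℂ), BddBelow (Set.range fun y : sphere a r => (v y + n * dist x (y : ℂ))) := by
    intro n x
    refine ⟨-K, ?_⟩
    rintro _ ⟨y, rfl⟩
    have h1 := (abs_le.mp (hb y (hs y.2))).1
    have h2 : 0 ≤ (n : ℝ) * dist x (y : ℂ) := by positivity
    simp only
    linarith
  have hgle : ∀ n, ∀ z ∈ sphere a r, g n z ≤ v z := by
    intro n z hz
    have := ciInf_le (hbdd n z) ⟨z, hz⟩
    simpa using this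
  have hgge : ∀ n z, -K ≤ g n z := by
    intro n z
    apply le_ciInf
    intro y
    have h1 := (abs_le.mp (hb y (hs y.2))).1
    have h2 : 0 ≤ (n : ℝ) * dist z (y : ℂ) := by positivity
    linarith
  have hgc : ∀ n, Continuous (g n) := by
    intro n
    have : LipschitzWith (n : NNReal) (g n) := by
      apply LipschitzWith.of_le_add_mul
      intro x x'
      have h1 : g n x - n * dist x x' ≤ g n x' := by
        apply le_ciInf
        intro y
        have h2 := ciInf_le (hbdd n x) y
        have h3 : dist x (y : ℂ) ≤ dist x x' + dist x' y := dist_triangle _ _ _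
        have h4 : (n : ℝ) * dist x (y : ℂ) ≤ n * (dist x x' + dist x' y) :=
          mul_le_mul_of_nonneg_left h3 (Nat.cast_nonneg _)
        simp only [hg]
        linarith
      simp
      linarith
    exact this.continuous
  have hlim : ∀ z ∈ sphere a r, Tendsto (fun n => g n z) atTop (𝓝 (v z)) := by
    intro z hz
    rw [Metric.tendsto_atTop]
    intro δ hδ
    have h1 := hl z (hs hz) (v z - δ / 2) (by linarith)
    rw [eventually_nhdsWithin_iff, Metric.eventually_nhds_iff] at h1
    obtain ⟨τ, hτ, h2⟩ := h1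
    obtain ⟨N, hN⟩ := exists_nat_gt (2 * K / τ)
    refine ⟨N, fun n hn => ?_⟩
    have h3 : v z - δ / 2 ≤ g n z := by
      apply le_ciInf
      intro y
      by_cases hy : dist (y : ℂ) z < τ
      · have h4 := h2 hy (hs y.2)
        have h5 : 0 ≤ (n : ℝ) * dist z (y : ℂ) := by positivity
        linarith
      · push Not at hy
        have h4 := (abs_le.mp (hb y (hs y.2))).1
        have h5 := (abs_le.mp (hb z (hs hz))).2
        have h6 : 2 * K ≤ n * dist z (y : ℂ) := by
          have h7 : (N : ℝ) ≤ n := by exact_mod_cast hn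
          rw [div_lt_iff₀ hτ] at hN
          rw [dist_comm]
          nlinarith
        linarith
    have h4 := hgle n z hz
    rw [Real.dist_eq, abs_lt]
    constructor <;> linarith
  have htend : Tendsto (fun n => Real.circleAverage (g n) a r) atTop
      (𝓝 (Real.circleAverage v a r)) := by
    simp only [Real.circleAverage_def]
    apply Tendsto.const_smul
    apply intervalIntegral.tendsto_integral_filter_of_dominated_convergence (fun _ => K)
    · apply Eventually.of_forall
      intro n
      exact ((hgc n).comp (continuous_circleMap a r)).aestronglyMeasurable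
    · apply Eventually.of_forall
      intro n
      apply Eventually.of_forall
      intro θ _
      have hz := circleMap_mem_sphere a hr.le θ
      rw [Real.norm_eq_abs, abs_le]
      exact ⟨hgge n _, (hgle n _ hz).trans (abs_le.mp (hb _ (hs hz))).2⟩
    · exact intervalIntegrable_const
    · apply Eventually.of_forall
      intro θ _
      exact hlim _ (circleMap_mem_sphere a hr.le θ)
  obtain ⟨n, hn⟩ := (htend.eventually (lt_mem_nhds (by linarith :
    Real.circleAverage v a r - ε < Real.circleAverage v a r))).exists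
  exact ⟨g n, hgc n, hgle n, hn⟩

/-- Uniform approximation on a circle by real parts of entire functions. -/
lemma exists_entire_approx {g : ℂ → ℝ} (hg : Continuous g) (a : ℂ) {r : ℝ} (hr : 0 < r)
    {ε : ℝ} (hε : 0 < ε) : ∃ F : ℂ → ℂ, Differentiable ℂ F ∧
      ∀ z ∈ sphere a r, |g z - (F z).re| < ε := by
  have : Fact (0 < 2 * π) := ⟨by positivity⟩
  set pt : AddCircle (2 * π) → ℂ := fun t => a + r * fourier 1 t with hpt
  have hptc : Continuous pt := by
    simp only [hpt]
    fun_prop
  set G : C(AddCircle (2 * π), ℂ) := ⟨fun t => ((g (pt t) : ℝ) : ℂ), by fun_prop⟩ with hG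
  have hGmem : G ∈ (Submodule.span ℂ (Set.range (@fourier (2 * π)))).topologicalClosure := by
    rw [span_fourier_closure_eq_top]
    exact Submodule.mem_top
  have hGmem' : G ∈ closure ((Submodule.span ℂ (Set.range (@fourier (2 * π))) :
      Submodule ℂ C(AddCircle (2 * π), ℂ)) : Set C(AddCircle (2 * π), ℂ)) := hGmem
  rw [Metric.mem_closure_iff] at hGmem'
  obtain ⟨P, hP, hdist⟩ := hGmem' ε hε
  have key : ∀ P ∈ Submodule.span ℂ (Set.range (@fourier (2 * π))),
      ∃ F₁ F₂ : ℂ → ℂ, Differentiable ℂ F₁ ∧ Differentiable ℂ F₂ ∧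
        ∀ t, P t = F₁ (pt t) + (starRingEnd ℂ) (F₂ (pt t)) := by
    intro P hP
    induction hP using Submodule.span_induction with
    | mem x hx =>
      obtain ⟨n, rfl⟩ := hx
      have hw : ∀ t : AddCircle (2 * π), (pt t - a) / r = fourier 1 t := by
        intro t
        simp only [hpt]
        have : (r : ℂ) ≠ 0 := by exact_mod_cast hr.ne'
        field_simp
        ring
      have hf : ∀ (m : ℕ) (t : AddCircle (2 * π)), fourier (m : ℤ) t = (fourier 1 t) ^ m := by
        intro m t
        induction m with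
        | zero => simp
        | succ k ih =>
          push_cast
          rw [fourier_add, ih, pow_succ]
      rcases Int.eq_nat_or_neg n with ⟨m, rfl | rfl⟩
      · refine ⟨fun z => ((z - a) / r) ^ m, fun _ => 0, by fun_prop, by fun_prop, ?_⟩
        intro t
        simp only [hf, hw]
        simp
      · refine ⟨fun _ => 0, fun z => ((z - a) / r) ^ m, by fun_prop, by fun_prop, ?_⟩
        intro t
        simp only [fourier_neg, hf, hw]
        simp
    | zero => exact ⟨fun _ => 0, fun _ => 0, by fun_prop, by fun_prop, by simp⟩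
    | add x y _ _ hx hy =>
      obtain ⟨F₁, F₂, h1, h2, h3⟩ := hx
      obtain ⟨G₁, G₂, k1, k2, k3⟩ := hy
      refine ⟨fun z => F₁ z + G₁ z, fun z => F₂ z + G₂ z, by fun_prop, by fun_prop, ?_⟩
      intro t
      rw [ContinuousMap.add_apply, h3, k3, map_add]
      ring
    | smul c x _ hx =>
      obtain ⟨F₁, F₂, h1, h2, h3⟩ := hx
      refine ⟨fun z => c * F₁ z, fun z => (starRingEnd ℂ) c * F₂ z, by fun_prop, by fun_prop, ?_⟩
      intro t
      rw [ContinuousMap.smul_apply, h3, map_mul, Complex.conj_conj, smul_eq_mul]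
      ring
  obtain ⟨F₁, F₂, h1, h2, h3⟩ := key P hP
  refine ⟨fun z => F₁ z + F₂ z, by fun_prop, ?_⟩
  intro z hz
  obtain ⟨t, rfl⟩ : ∃ t, pt t = z := by
    obtain ⟨θ, rfl⟩ : ∃ θ : ℝ, circleMap a r θ = z := by
      have : z ∈ Set.range (circleMap a r) := by
        rw [range_circleMap, abs_of_pos hr]
        exact hz
      exact this
    refine ⟨(θ : AddCircle (2 * π)), ?_⟩
    simp only [hpt, circleMap]
    rw [fourier_coe_apply]
    congr 3
    have : (π : ℂ) ≠ 0 := by exact_mod_cast Real.pi_ne_zero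
    push_cast
    field_simp
  have h4 : ‖G t - P t‖ < ε := by
    have := ContinuousMap.dist_apply_le_dist (f := G) (g := P) t
    rw [dist_eq_norm] at this
    exact this.trans_lt hdist
  have h5 : (G t - P t).re = g (pt t) - (F₁ (pt t) + F₂ (pt t)).re := by
    rw [h3 t]
    simp [hG]
  rw [← h5]
  exact (Complex.abs_re_le_norm _).trans_lt h4

/-- From the local to the global super-mean inequality. -/
lemma SupR.circle {v : ℂ → ℝ} {U : Set ℂ} (hv : SupR v U) {a : ℂ} {r : ℝ}
    (hr : 0 < r) (hball : closedBall a r ⊆ U) : Real.circleAverage v a r ≤ v a := by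
  apply le_of_forall_pos_le_add
  intro ε hε
  obtain ⟨K, hK⟩ := hv.bdd
  have hsph : sphere a r ⊆ U := sphere_subset_closedBall.trans hball
  obtain ⟨g, hgc, hgle, hgavg⟩ := exists_minorants hv.lsc hK hr hsph (half_pos hε)
  obtain ⟨F, hF, hFapp⟩ := exists_entire_approx hgc a hr (by positivity : (0 : ℝ) < ε / 4)
  have hharm : ∀ S : Set ℂ, InnerProductSpace.HarmonicOnNhd (fun z => (F z).re) S :=
    fun S z _ => (hF.analyticAt z).harmonicAt_re
  have hFc : Continuous fun z => (F z).re := Complex.continuous_re.comp hF.continuous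
  have hrpos : (0 : ℝ) < r := hr
  -- the comparison function
  have hw : SupR (fun z => v z + (-(F z).re + ε / 4)) (ball a r) := by
    refine ⟨?_, ?_, ?_⟩
    · apply (hv.lsc.mono (ball_subset_closedBall.trans hball)).add
      exact (by fun_prop : Continuous fun z => -(F z).re + ε / 4).continuousOn.lowerSemicontinuousOn
    · intro b hb
      obtain ⟨ρ, hρ, hb1, hb2⟩ := hv.mean b (hball (ball_subset_closedBall hb))
      obtain ⟨τ, hτ, hb3⟩ := Metric.isOpen_iff.mp (isOpen_ball (x := a) (ε := r)) b hb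
      refine ⟨min ρ (τ / 2), lt_min hρ (by linarith), ?_, ?_⟩
      · refine (closedBall_subset_ball ?_).trans hb3
        exact (min_le_right _ _).trans_lt (by linarith)
      · intro s hs
        have hs1 : s < ρ := hs.2.trans_le (min_le_left _ _)
        have h1 := hb2 s ⟨hs.1, hs1⟩
        have hint1 : CircleIntegrable v b s := by
          apply circleIntegrable_of_lsc hv.lsc hK hs.1.le
          exact (sphere_subset_closedBall.trans (closedBall_subset_closedBall hs1.le)).trans hb1
        have hint2 : CircleIntegrable (fun z => -(F z).re + ε / 4) b s := by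
          apply ContinuousOn.circleIntegrable hs.1.le
          exact (by fun_prop : Continuous fun z => -(F z).re + ε / 4).continuousOn
        have h2 : Real.circleAverage (fun z => v z + (-(F z).re + ε / 4)) b s =
            Real.circleAverage v b s + Real.circleAverage (fun z => -(F z).re + ε / 4) b s :=
          Real.circleAverage_fun_add hint1 hint2
        have h3 : Real.circleAverage (fun z => -(F z).re + ε / 4) b s = -(F b).re + ε / 4 := by
          have hG : Differentiable ℂ fun z => -F z + ((ε / 4 : ℝ) : ℂ) := by fun_prop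
          have h4 : InnerProductSpace.HarmonicOnNhd
              (fun z => (-F z + ((ε / 4 : ℝ) : ℂ)).re) (closedBall b |s|) :=
            fun z _ => (hG.analyticAt z).harmonicAt_re
          have h5 := h4.circleAverage_eq
          simpa using h5
        rw [h2, h3]
        linarith
    · obtain ⟨K', hK'⟩ := (isCompact_closedBall a r).bddAbove_image
        (by fun_prop : Continuous fun z => |-(F z).re + ε / 4|).continuousOn
      refine ⟨K + K', fun z hz => ?_⟩
      have h1 := hK z (hball (ball_subset_closedBall hz))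
      have h2 := hK' (Set.mem_image_of_mem _ (ball_subset_closedBall hz))
      exact (abs_add_le _ _).trans (add_le_add h1 h2)
  have hmin := min_principle isBounded_ball hw ?_ a (mem_ball_self hr)
  · -- conclude
    have h1 : Real.circleAverage (fun z => (F z).re) a r = (F a).re :=
      (hharm _).circleAverage_eq
    have h2 : Real.circleAverage g a r ≤ Real.circleAverage (fun z => (F z).re + ε / 4) a r := by
      apply Real.circleAverage_mono
      · exact hgc.continuousOn.circleIntegrable hr.le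
      · exact (by fun_prop : Continuous fun z => (F z).re + ε / 4).continuousOn.circleIntegrable
          hr.le
      · intro z hz
        rw [abs_of_pos hr] at hz
        have := (abs_lt.mp (hFapp z hz)).2
        linarith
    have h3 : Real.circleAverage (fun z => (F z).re + ε / 4) a r = (F a).re + ε / 4 := by
      have hG : Differentiable ℂ fun z => F z + ((ε / 4 : ℝ) : ℂ) := by fun_prop
      have h4 : InnerProductSpace.HarmonicOnNhd
          (fun z => (F z + ((ε / 4 : ℝ) : ℂ)).re) (closedBall a |r|) :=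
        fun z _ => (hG.analyticAt z).harmonicAt_re
      have h5 := h4.circleAverage_eq
      simpa using h5
    linarith
  · intro ζ hζ δ hδ
    have hζs : ζ ∈ sphere a r := by
      rw [frontier_ball a hr.ne'] at hζ
      exact hζ
    have h1 : v ζ + (-(F ζ).re + ε / 4) > 0 := by
      have h2 := hgle ζ hζs
      have h3 := (abs_lt.mp (hFapp ζ hζs)).1
      linarith
    have h4 : LowerSemicontinuousOn (fun z => v z + (-(F z).re + ε / 4)) U := by
      apply hv.lsc.add
      exact (by fun_prop : Continuous fun z => -(F z).re + ε / 4).continuousOn.lowerSemicontinuousOn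
    have h5 := h4 ζ (hsph hζs) (-δ) (by simp only; linarith)
    exact nhdsWithin_mono ζ (ball_subset_closedBall.trans hball) h5

lemma area_le {F : ℂ → ℝ} (hF : Measurable F) {K : ℝ} (hK : ∀ z, |F z| ≤ K) (c : ℂ) {R : ℝ}
    (hR : 0 < R) {A : ℝ} (hA : ∀ t ∈ Ioo 0 R, Real.circleAverage F c t ≤ A) :
    ∫ z in ball c R, F z ≤ π * R ^ 2 * A := by
  have hK0 : 0 ≤ K := (abs_nonneg _).trans (hK 0)
  set T : Set (ℝ × ℝ) := Ioo 0 R ×ˢ Ioo (-π) π with hT
  have hTm : MeasurableSet T := measurableSet_Ioo.prod measurableSet_Ioo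
  have e1 : ∫ z in ball c R, F z = ∫ z, (ball (0 : ℂ) R).indicator (fun z => F (c + z)) z := by
    rw [← integral_indicator measurableSet_ball, ← integral_add_left_eq_self _ c]
    congr 1
    ext z
    simp only [indicator, mem_ball, dist_eq_norm]
    simp
  have e2 : ∫ z, (ball (0 : ℂ) R).indicator (fun z => F (c + z)) z =
      ∫ p in T, p.1 * F (circleMap c p.1 p.2) := by
    rw [← Complex.integral_comp_polarCoord_symm]
    have h1 : polarCoord.target = Set.Ioi (0 : ℝ) ×ˢ Set.Ioo (-π) π := rfl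
    have hsub : T ⊆ polarCoord.target := by
      rw [h1]
      exact Set.prod_mono (fun x hx => hx.1) le_rfl
    have h2 : ∀ p ∈ polarCoord.target,
        p.1 • (ball (0 : ℂ) R).indicator (fun z => F (c + z)) (Complex.polarCoord.symm p) =
        T.indicator (fun p => p.1 * F (circleMap c p.1 p.2)) p := by
      intro p hp
      rw [h1] at hp
      have hp1 : 0 < p.1 := hp.1
      have hmap : c + Complex.polarCoord.symm p = circleMap c p.1 p.2 := by
        rw [Complex.polarCoord_symm_apply, circleMap, Complex.exp_mul_I]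
        simp
      have hnorm : ‖Complex.polarCoord.symm p‖ = p.1 := by
        rw [Complex.norm_polarCoord_symm, abs_of_pos hp1]
      by_cases hlt : p.1 < R
      · rw [indicator_of_mem, indicator_of_mem, hmap, smul_eq_mul]
        · exact ⟨⟨hp1, hlt⟩, hp.2⟩
        · rw [mem_ball_zero_iff, hnorm]
          exact hlt
      · rw [indicator_of_notMem, indicator_of_notMem, smul_zero]
        · exact fun h => hlt h.1.2
        · rw [mem_ball_zero_iff, hnorm]
          exact hlt
    rw [setIntegral_congr_fun polarCoord.open_target.measurableSet h2,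
      setIntegral_indicator hTm, inter_eq_self_of_subset_right hsub]
  have hcm : Continuous fun p : ℝ × ℝ => circleMap c p.1 p.2 := by
    unfold circleMap
    fun_prop
  have hint : IntegrableOn (fun p : ℝ × ℝ => p.1 * F (circleMap c p.1 p.2)) T := by
    apply Measure.integrableOn_of_bounded (M := R * K)
    · rw [hT, Measure.volume_eq_prod, Measure.prod_prod]
      simp [ENNReal.mul_eq_top]
    · exact (measurable_fst.mul (hF.comp hcm.measurable)).aestronglyMeasurable
    · rw [ae_restrict_iff' hTm]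
      apply Eventually.of_forall
      intro p hp
      rw [norm_mul, Real.norm_eq_abs, Real.norm_eq_abs, abs_of_pos hp.1.1]
      exact mul_le_mul hp.1.2.le (hK _) (abs_nonneg _) hR.le
  have hint' : Integrable (fun p : ℝ × ℝ => p.1 * F (circleMap c p.1 p.2))
      ((volume.restrict (Ioo 0 R)).prod (volume.restrict (Ioo (-π) π))) := by
    rw [Measure.prod_restrict]
    exact hint
  have e3 : ∫ p in T, p.1 * F (circleMap c p.1 p.2) =
      ∫ t in Ioo 0 R, ∫ θ in Ioo (-π) π, t * F (circleMap c t θ) := by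
    rw [hT, Measure.volume_eq_prod, setIntegral_prod _ hint]
  have e4 : ∀ t ∈ Ioo 0 R, ∫ θ in Ioo (-π) π, t * F (circleMap c t θ) =
      t * (2 * π * Real.circleAverage F c t) := by
    intro t _
    rw [integral_const_mul]
    congr 1
    rw [← integral_Ioc_eq_integral_Ioo, ← intervalIntegral.integral_of_le (by linarith [Real.pi_pos]),
      Real.circleAverage_eq_integral_add (-π), smul_eq_mul,
      intervalIntegral.integral_comp_add_right (fun θ ↦ F (circleMap c t θ)), ← mul_assoc,
      mul_inv_cancel₀ (by positivity), one_mul]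
    congr 1 <;> ring
  have hL : IntegrableOn (fun t => ∫ θ in Ioo (-π) π, t * F (circleMap c t θ)) (Ioo 0 R) :=
    hint'.integral_prod_left
  rw [e1, e2, e3]
  calc ∫ t in Ioo 0 R, ∫ θ in Ioo (-π) π, t * F (circleMap c t θ)
      ≤ ∫ t in Ioo 0 R, t * (2 * π * A) := by
        apply setIntegral_mono_on hL _ measurableSet_Ioo
        · intro t ht
          rw [e4 t ht]
          apply mul_le_mul_of_nonneg_left _ ht.1.le
          exact mul_le_mul_of_nonneg_left (hA t ht) (by positivity)
        · apply IntegrableOn.mono_set _ Ioo_subset_Icc_self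
          exact (by fun_prop : Continuous fun t : ℝ => t * (2 * π * A)).integrableOn_Icc
    _ = π * R ^ 2 * A := by
        rw [← integral_Ioc_eq_integral_Ioo, ← intervalIntegral.integral_of_le hR.le,
          intervalIntegral.integral_mul_const, integral_id]
        ring

lemma fubini_half {V W : ℂ → ℝ} (hVi : Integrable V) (hW : Measurable W)
    {K : ℝ} (hWb : ∀ z, |W z| ≤ K) (r : ℝ) :
    ∫ z, V z * Real.circleAverage W z r =
      (2 * π)⁻¹ * ∫ θ in Ioc 0 (2 * π), ∫ z, V z * W (circleMap z r θ) := by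
  have hcm : Continuous fun p : ℂ × ℝ => circleMap p.1 r p.2 := by
    unfold circleMap
    fun_prop
  have hint : Integrable (Function.uncurry fun (z : ℂ) (θ : ℝ) => V z * W (circleMap z r θ))
      (volume.prod (volume.restrict (Ioc 0 (2 * π)))) := by
    have h1 : Integrable (fun p : ℂ × ℝ => V p.1 * W (circleMap p.1 r p.2))
        (volume.prod (volume.restrict (Ioc 0 (2 * π)))) := by
      apply Integrable.mul_bdd (c := K) (hVi.comp_fst _)
      · exact (hW.comp hcm.measurable).aestronglyMeasurable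
      · exact Eventually.of_forall fun p => by simpa using hWb _
    exact h1
  have h2 := integral_integral_swap hint
  rw [← h2, ← integral_const_mul]
  congr 1
  ext z
  rw [integral_const_mul, Real.circleAverage_def, smul_eq_mul,
    intervalIntegral.integral_of_le (by positivity)]
  ring

lemma fubini_avg {V W : ℂ → ℝ} (hV : Measurable V) (hVi : Integrable V) {K₁ : ℝ}
    (hVb : ∀ z, |V z| ≤ K₁) (hW : Measurable W) (hWi : Integrable W)
    {K₂ : ℝ} (hWb : ∀ z, |W z| ≤ K₂) (r : ℝ) :
    ∫ z, V z * Real.circleAverage W z r = ∫ z, W z * Real.circleAverage V z r := by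
  rw [fubini_half hVi hW hWb r]
  have h1 : ∀ z, Real.circleAverage V z r = Real.circleAverage V z (-r) := by
    intro z
    rw [Real.circleAverage_neg_radius]
  simp only [h1]
  rw [fubini_half hWi hV hVb (-r)]
  congr 1
  apply setIntegral_congr_fun measurableSet_Ioc
  intro θ _
  simp only
  rw [← integral_add_right_eq_self (fun z => V z * W (circleMap z r θ)) (circleMap 0 (-r) θ)]
  congr 1
  ext z
  have e1 : z + circleMap 0 (-r) θ = circleMap z (-r) θ := by simp [circleMap]
  have e2 : circleMap (circleMap z (-r) θ) r θ = z := by simp [circleMap]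
  rw [e1, e2, mul_comm]

/-- The function whose positivity set contains the sector. -/
noncomputable def gg (κ : ℕ) (z : ℂ) : ℝ := -(z ^ κ).im

lemma gg_continuous (κ : ℕ) : Continuous (gg κ) := by
  unfold gg
  fun_prop

lemma gg_harmonic (κ : ℕ) (S : Set ℂ) : InnerProductSpace.HarmonicOnNhd (gg κ) S := by
  intro z _
  have h1 : Differentiable ℂ fun z : ℂ => Complex.I * z ^ κ := by fun_prop
  have h2 : gg κ = fun z : ℂ => (Complex.I * z ^ κ).re := by
    ext z
    simp [gg]
  rw [h2]
  exact (h1.analyticAt z).harmonicAt_re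

lemma gg_le (κ : ℕ) (z : ℂ) : gg κ z ≤ ‖z‖ ^ κ := by
  unfold gg
  rw [← norm_pow]
  exact (neg_le_abs _).trans (Complex.abs_im_le_norm _)

/-- average of `gg + c + e |z|^2` -/
lemma avg_gg (κ : ℕ) (a : ℂ) (r c e : ℝ) :
    Real.circleAverage (fun z => gg κ z + (c + e * ‖z‖ ^ 2)) a r =
      gg κ a + (c + e * (‖a‖ ^ 2 + r ^ 2)) := by
  have h1 : CircleIntegrable (gg κ) a r :=
    (gg_continuous κ).continuousOn.circleIntegrable'
  have h2 : CircleIntegrable (fun z : ℂ => c + e * ‖z‖ ^ 2) a r :=
    (by fun_prop : Continuous fun z : ℂ => c + e * ‖z‖ ^ 2).continuousOn.circleIntegrable'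
  rw [Real.circleAverage_fun_add h1 h2, avg_normSq, (gg_harmonic κ _).circleAverage_eq]

lemma SupR.indicator_measurable {U : Set ℂ} (hUo : IsOpen U) {v : ℂ → ℝ} (hv : SupR v U)
    (hv0 : ∀ z ∈ U, 0 ≤ v z) : Measurable (U.indicator v) := by
  have hVlsc : LowerSemicontinuous (U.indicator v) := by
    intro z y hy
    by_cases hz : z ∈ U
    · rw [indicator_of_mem hz] at hy
      have h1 := hv.lsc z hz y hy
      rw [hUo.nhdsWithin_eq hz] at h1
      filter_upwards [h1, hUo.mem_nhds hz] with x hx hxU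
      rw [indicator_of_mem hxU]
      exact hx
    · rw [indicator_of_notMem hz] at hy
      apply Eventually.of_forall
      intro x
      have h0 : 0 ≤ U.indicator v x := indicator_nonneg hv0 x
      exact lt_of_lt_of_le hy h0
  exact hVlsc.measurable

lemma SupR.integrableOn {U : Set ℂ} (hUo : IsOpen U) (hUb : Bornology.IsBounded U) {v : ℂ → ℝ}
    (hv : SupR v U) (hv0 : ∀ z ∈ U, 0 ≤ v z) : IntegrableOn v U := by
  obtain ⟨K, hK⟩ := hv.bdd
  have h1 : AEStronglyMeasurable (U.indicator v) volume :=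
    (hv.indicator_measurable hUo hv0).aestronglyMeasurable
  rw [aestronglyMeasurable_indicator_iff hUo.measurableSet] at h1
  have hfin : IsFiniteMeasure (volume.restrict U) :=
    ⟨by rw [Measure.restrict_apply_univ]; exact hUb.measure_lt_top⟩
  apply Integrable.of_bound h1 K
  rw [ae_restrict_iff' hUo.measurableSet]
  exact Eventually.of_forall hK

lemma key {U S : Set ℂ} (hUo : IsOpen U) (hUb : Bornology.IsBounded U) (hSo : IsOpen S) {κ : ℕ}
    (hfr : ∀ z ∈ closure S, z ∉ S → gg κ z = 0)
    (hSU : ∀ z ∈ S, ‖z‖ < 3 → z ∈ U)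
    (hD : ball (10 : ℂ) 9 ⊆ U)
    (hSD : ∀ z ∈ S, 19 / 10 ≤ ‖z‖ → ‖z‖ < 3 → z ∈ ball (10 : ℂ) 9)
    {v : ℂ → ℝ} (hv : SupR v U) (hv0 : ∀ z ∈ U, 0 ≤ v z) {η : ℝ} (hη : 0 < η) :
    ∫ z in {z | z ∈ S ∧ ‖z‖ < 2 ∧ 10 * η < gg κ z}, v z ≤ 24 * 3 ^ κ / η * (81 * π * v 10) := by
  obtain ⟨K, hK⟩ := hv.bdd
  have h10 : (10 : ℂ) ∈ U := hD (mem_ball_self (by norm_num))
  have hK0 : 0 ≤ K := (abs_nonneg _).trans (hK 10 h10)
  set Λ : ℝ := 3 ^ κ with hΛ
  have hΛ0 : 0 < Λ := by positivity
  set V : ℂ → ℝ := U.indicator v with hV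
  have hVm : Measurable V := hv.indicator_measurable hUo hv0
  have hV0 : ∀ z, 0 ≤ V z := fun z => indicator_nonneg hv0 z
  have hVK : ∀ z, |V z| ≤ K := by
    intro z
    by_cases hz : z ∈ U
    · rw [hV, indicator_of_mem hz]
      exact hK z hz
    · rw [hV, indicator_of_notMem hz]
      simpa using hK0
  have hvi : IntegrableOn v U := hv.integrableOn hUo hUb hv0
  have hVi : Integrable V := by
    rw [hV, integrable_indicator_iff hUo.measurableSet]
    exact hvi
  -- the compact set
  set O : Set ℂ := S ∩ ball 0 3 with hO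
  have hOo : IsOpen O := hSo.inter isOpen_ball
  have hOU : O ⊆ U := fun z hz => hSU z hz.1 (by simpa using hz.2)
  set K0 : Set ℂ := {z | z ∈ closure S ∧ ‖z‖ ^ 2 ≤ 5 ∧ η ≤ gg κ z} with hK0def
  have hK0c : IsCompact K0 := by
    apply Metric.isCompact_of_isClosed_isBounded
    · apply isClosed_closure.inter
      apply IsClosed.inter
      · exact isClosed_le (continuous_norm.pow 2) continuous_const
      · exact isClosed_le continuous_const (gg_continuous κ)
    · apply (isBounded_closedBall (x := (0 : ℂ)) (r := 3)).subset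
      intro z hz
      rw [mem_closedBall_zero_iff]
      nlinarith [hz.2.1, norm_nonneg z]
  have hK0O : K0 ⊆ O := by
    intro z hz
    refine ⟨?_, ?_⟩
    · by_contra hzS
      have h1 := hfr z hz.1 hzS
      have h2 := hz.2.2
      linarith
    · rw [mem_ball_zero_iff]
      nlinarith [hz.2.1, norm_nonneg z]
  obtain ⟨r0, hr0, hr0sub⟩ := hK0c.exists_cthickening_subset_open hOo hK0O
  set r : ℝ := min r0 (1 / 10) with hr
  have hrpos : 0 < r := lt_min hr0 (by norm_num)
  have hr1 : r ≤ 1 / 10 := min_le_right _ _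
  have hball : ∀ z ∈ K0, closedBall z r ⊆ O := by
    intro z hz
    refine (closedBall_subset_closedBall (min_le_left _ _)).trans ?_
    exact (closedBall_subset_cthickening hz r0).trans hr0sub
  -- the test function
  set q : ℂ → ℝ := fun z => (max (‖z‖ ^ 2 - 4) 0) ^ 2 with hq
  set s : ℂ → ℝ := fun z => gg κ z + η * ‖z‖ ^ 2 - 10 * η - Λ * q z with hs
  have hsc : Continuous s := by
    have := gg_continuous κ
    simp only [hs, hq]
    fun_prop
  have hq0 : ∀ z, 0 ≤ q z := fun z => by simp only [hq]; positivity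
  set ψ : ℂ → ℝ := O.indicator fun z => max (s z) 0 with hψ
  have hψm : Measurable ψ := (by fun_prop : Continuous fun z => max (s z) 0).measurable.indicator
    hOo.measurableSet
  have hψ0 : ∀ z, 0 ≤ ψ z := fun z => indicator_nonneg (fun z _ => le_max_right _ _) z
  have hnO : ∀ z ∈ O, ‖z‖ < 3 := fun z hz => by simpa using hz.2
  have hψK : ∀ z, |ψ z| ≤ Λ + 9 * η := by
    intro z
    rw [abs_of_nonneg (hψ0 z)]
    by_cases hz : z ∈ O
    · rw [hψ, indicator_of_mem hz]
      apply max_le _ (by positivity)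
      have h1 := gg_le κ z
      have h2 : ‖z‖ ^ κ ≤ Λ := pow_le_pow_left₀ (norm_nonneg _) (hnO z hz).le κ
      have h3 : 0 ≤ Λ * q z := mul_nonneg hΛ0.le (hq0 z)
      have h4 : ‖z‖ ^ 2 ≤ 9 := by nlinarith [hnO z hz, norm_nonneg z]
      simp only [hs]
      nlinarith
    · rw [hψ, indicator_of_notMem hz]
      positivity
  have hψi : Integrable ψ := by
    rw [hψ, integrable_indicator_iff hOo.measurableSet]
    have hOb : Bornology.IsBounded O := isBounded_ball.subset inter_subset_right
    apply Measure.integrableOn_of_bounded (M := Λ + 9 * η) hOb.measure_lt_top.ne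
    · exact (by fun_prop : Continuous fun z => max (s z) 0).aestronglyMeasurable
    · rw [ae_restrict_iff' hOo.measurableSet]
      apply Eventually.of_forall
      intro z hz
      have := hψK z
      rwa [hψ, indicator_of_mem hz] at this
  have hmemK0 : ∀ z ∈ O, 0 ≤ s z → z ∈ K0 := by
    intro z hz hsz
    have h1 := gg_le κ z
    have h2 : ‖z‖ ^ κ ≤ Λ := pow_le_pow_left₀ (norm_nonneg _) (hnO z hz).le κ
    have h3 : 0 ≤ Λ * q z := mul_nonneg hΛ0.le (hq0 z)
    have h4 : ‖z‖ ^ 2 ≤ 9 := by nlinarith [hnO z hz, norm_nonneg z]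
    simp only [hs] at hsz
    have h5 : η ≤ gg κ z := by nlinarith
    have h6 : Λ * q z ≤ Λ := by nlinarith
    have h7 : q z ≤ 1 := by
      have : Λ * q z ≤ Λ * 1 := by linarith
      exact le_of_mul_le_mul_left this hΛ0
    refine ⟨subset_closure hz.1, ?_, h5⟩
    simp only [hq] at h7
    have h8 : max (‖z‖ ^ 2 - 4) 0 ≤ 1 := by
      nlinarith [le_max_right (‖z‖ ^ 2 - 4) 0]
    have h9 := (le_max_left (‖z‖ ^ 2 - 4) 0).trans h8
    linarith
  -- main pointwise estimate
  set P : Set ℂ := {z | z ∈ S ∧ ‖z‖ < 2 ∧ 10 * η < gg κ z} with hP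
  set E : Set ℂ := {z | z ∈ S ∧ 19 / 10 ≤ ‖z‖ ∧ ‖z‖ < 3} with hE
  have hPm : MeasurableSet P := by
    apply hSo.measurableSet.inter
    apply MeasurableSet.inter
    · exact (isOpen_lt continuous_norm continuous_const).measurableSet
    · exact (isOpen_lt continuous_const (gg_continuous κ)).measurableSet
  have hEm : MeasurableSet E := by
    apply hSo.measurableSet.inter
    apply MeasurableSet.inter
    · exact (isClosed_le continuous_const continuous_norm).measurableSet
    · exact (isOpen_lt continuous_norm continuous_const).measurableSet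
  have hψint : ∀ z, CircleIntegrable ψ z r := by
    intro z
    rw [CircleIntegrable, intervalIntegrable_iff]
    apply Measure.integrableOn_of_bounded (M := Λ + 9 * η)
    · rw [Set.uIoc_of_le (by positivity)]
      exact measure_Ioc_lt_top.ne
    · exact (hψm.comp (continuous_circleMap z r).measurable).aestronglyMeasurable
    · exact Eventually.of_forall (fun θ => by simpa using hψK _)
  have hpt : ∀ z, η * r ^ 2 * P.indicator (fun _ => (1 : ℝ)) z -
      24 * Λ * r ^ 2 * E.indicator (fun _ => (1 : ℝ)) z ≤ Real.circleAverage ψ z r - ψ z := by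
    intro z
    have hE1 : 0 ≤ E.indicator (fun _ => (1 : ℝ)) z := indicator_nonneg (fun _ _ => zero_le_one) z
    have hP1 : P.indicator (fun _ => (1 : ℝ)) z ≤ 1 :=
      indicator_le_self' (fun _ _ => zero_le_one) z
    have hP2 : 0 ≤ P.indicator (fun _ => (1 : ℝ)) z := indicator_nonneg (fun _ _ => zero_le_one) z
    by_cases hcase : z ∈ O ∧ 0 ≤ s z
    · obtain ⟨hzO, hsz⟩ := hcase
      have hzK := hmemK0 z hzO hsz
      have hsub := hball z hzK
      have hψz : ψ z = s z := by
        rw [hψ, indicator_of_mem hzO]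
        exact max_eq_left hsz
      have hψge : ∀ w ∈ sphere z r, s w ≤ ψ w := by
        intro w hw
        rw [hψ, indicator_of_mem (hsub (sphere_subset_closedBall hw))]
        exact le_max_left _ _
      have hcomp : ∀ c e : ℝ, (∀ w ∈ sphere z r, gg κ w + (c + e * ‖w‖ ^ 2) ≤ s w) →
          gg κ z + (c + e * (‖z‖ ^ 2 + r ^ 2)) ≤ Real.circleAverage ψ z r := by
        intro c e hce
        rw [← avg_gg]
        apply Real.circleAverage_mono
        · have := gg_continuous κ
          exact (by fun_prop :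
            Continuous fun z => gg κ z + (c + e * ‖z‖ ^ 2)).continuousOn.circleIntegrable'
        · exact hψint z
        · intro w hw
          rw [abs_of_pos hrpos] at hw
          exact (hce w hw).trans (hψge w hw)
      have hPη : η * r ^ 2 * P.indicator (fun _ => (1 : ℝ)) z ≤ η * r ^ 2 := by
        have : 0 ≤ η * r ^ 2 := by positivity
        nlinarith
      have hdist : ∀ w ∈ sphere z r, |‖w‖ - ‖z‖| ≤ r := by
        intro w hw
        have h1 : ‖w - z‖ = r := by simpa [dist_eq_norm] using hw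
        rw [← h1]
        exact abs_norm_sub_norm_le w z
      by_cases hz19 : 19 / 10 ≤ ‖z‖
      · -- far region
        have hzE : z ∈ E := ⟨hzO.1, hz19, hnO z hzO⟩
        rw [indicator_of_mem hzE]
        set p : ℝ := max (‖z‖ ^ 2 - 4) 0 with hp
        have hp0 : 0 ≤ p := le_max_right _ _
        have hz5 : ‖z‖ ^ 2 ≤ 5 := hzK.2.1
        have hp1 : p ≤ 1 := max_le (by linarith) (by norm_num)
        have hz23 : ‖z‖ ≤ 9 / 4 := by
          by_contra h
          push Not at h
          nlinarith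
        have h1 := hcomp (-(10 * η) - Λ * (q z - 2 * p * ‖z‖ ^ 2 + 22 * r ^ 2))
          (η - Λ * (2 * p)) ?_
        · rw [hψz]
          simp only [hs]
          have h2 : 2 * p * r ^ 2 * Λ ≤ 2 * r ^ 2 * Λ := by
            have : 0 ≤ r ^ 2 * Λ := by positivity
            nlinarith
          nlinarith
        · intro w hw
          have h2 := abs_le.mp (hdist w hw)
          set x : ℝ := ‖w‖ ^ 2 - ‖z‖ ^ 2 with hx
          have hx2 : x ^ 2 ≤ 22 * r ^ 2 := by
            have h3 : x = (‖w‖ - ‖z‖) * (‖w‖ + ‖z‖) := by rw [hx]; ring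
            have h4 : 0 ≤ ‖w‖ + ‖z‖ := by positivity
            have h5 : ‖w‖ + ‖z‖ ≤ 46 / 10 := by linarith
            have h6 : (‖w‖ - ‖z‖) ^ 2 ≤ r ^ 2 := by
              rw [← sq_abs]
              exact pow_le_pow_left₀ (abs_nonneg _) (hdist w hw) 2
            have h7 : (‖w‖ + ‖z‖) ^ 2 ≤ 22 := by nlinarith
            rw [h3, mul_pow]
            calc (‖w‖ - ‖z‖) ^ 2 * (‖w‖ + ‖z‖) ^ 2 ≤ r ^ 2 * 22 := by
                  apply mul_le_mul h6 h7 (by positivity) (by positivity)
              _ = 22 * r ^ 2 := by ring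
          have hqw : q w ≤ q z + 2 * p * x + x ^ 2 := by
            simp only [hq]
            rw [← hp]
            have h8 : ‖w‖ ^ 2 - 4 = (‖z‖ ^ 2 - 4) + x := by rw [hx]; ring
            rw [h8]
            rcases le_total (‖z‖ ^ 2 - 4 + x) 0 with h9 | h9
            · rw [max_eq_right h9]
              nlinarith [sq_nonneg (p + x)]
            · rw [max_eq_left h9]
              have h10 : ‖z‖ ^ 2 - 4 ≤ p := le_max_left _ _
              nlinarith
          have h9 : Λ * q w ≤ Λ * (q z + 2 * p * x + 22 * r ^ 2) :=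
            mul_le_mul_of_nonneg_left (by linarith) hΛ0.le
          simp only [hs]
          rw [hx] at h9
          nlinarith
      · -- near region
        push Not at hz19
        have hzE : z ∉ E := fun h => absurd h.2.1 (not_le.mpr hz19)
        rw [indicator_of_notMem hzE]
        have hqz : q z = 0 := by
          simp only [hq]
          rw [max_eq_right (by nlinarith [norm_nonneg z])]
          norm_num
        have h1 := hcomp (-(10 * η)) η ?_
        · rw [hψz]
          simp only [hs]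
          rw [hqz]
          nlinarith
        · intro w hw
          have h2 := abs_le.mp (hdist w hw)
          have hqw : q w = 0 := by
            simp only [hq]
            rw [max_eq_right (by nlinarith [norm_nonneg z, norm_nonneg w])]
            norm_num
          simp only [hs]
          rw [hqw]
          linarith
    · have hψz : ψ z = 0 := by
        by_cases hzO : z ∈ O
        · have h1 : s z < 0 := by
            by_contra h
            push Not at h
            exact hcase ⟨hzO, h⟩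
          rw [hψ, indicator_of_mem hzO]
          exact max_eq_right h1.le
        · rw [hψ, indicator_of_notMem hzO]
      have hzP : z ∉ P := by
        intro hzP
        apply hcase
        have hn2 : ‖z‖ < 2 := hzP.2.1
        refine ⟨⟨hzP.1, by rw [mem_ball_zero_iff]; linarith⟩, ?_⟩
        have hqz : q z = 0 := by
          simp only [hq]
          rw [max_eq_right (by nlinarith [norm_nonneg z])]
          norm_num
        simp only [hs]
        rw [hqz]
        have h3 := hzP.2.2
        have : 0 ≤ η * ‖z‖ ^ 2 := by positivity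
        linarith
      rw [indicator_of_notMem hzP, hψz]
      have h1 : 0 ≤ Real.circleAverage ψ z r := Real.circleAverage_nonneg_of_nonneg fun w _ => hψ0 w
      have h2 : 0 ≤ 24 * Λ * r ^ 2 := by positivity
      nlinarith
  -- integrated inequality
  have hVavg : ∀ z, ψ z * Real.circleAverage V z r ≤ ψ z * V z := by
    intro z
    by_cases hcase : z ∈ O ∧ 0 ≤ s z
    · obtain ⟨hzO, hsz⟩ := hcase
      have hsub := (hball z (hmemK0 z hzO hsz)).trans hOU
      have h1 := hv.circle hrpos hsub
      have h2 : Real.circleAverage V z r = Real.circleAverage v z r := by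
        apply Real.circleAverage_congr_sphere
        intro w hw
        rw [abs_of_pos hrpos] at hw
        rw [hV, indicator_of_mem (hsub (sphere_subset_closedBall hw))]
      rw [h2]
      have h3 : V z = v z := by rw [hV, indicator_of_mem (hOU hzO)]
      rw [h3]
      exact mul_le_mul_of_nonneg_left h1 (hψ0 z)
    · have hψz : ψ z = 0 := by
        by_cases hzO : z ∈ O
        · have h1 : s z < 0 := by
            by_contra h
            push Not at h
            exact hcase ⟨hzO, h⟩
          rw [hψ, indicator_of_mem hzO]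
          exact max_eq_right h1.le
        · rw [hψ, indicator_of_notMem hzO]
      rw [hψz, zero_mul, zero_mul]
  -- measurability of averages
  have havgm : ∀ W : ℂ → ℝ, Measurable W → ∀ C : ℝ, (∀ z, |W z| ≤ C) →
      Measurable (fun z => Real.circleAverage W z r) ∧ ∀ z, |Real.circleAverage W z r| ≤ C := by
    intro W hW C hC
    constructor
    · have hcm : Continuous fun p : ℂ × ℝ => circleMap p.1 r p.2 := by
        unfold circleMap
        fun_prop
      have h1 : StronglyMeasurable fun z : ℂ =>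
          ∫ θ in Ioc 0 (2 * π), W (circleMap z r θ) := by
        apply StronglyMeasurable.integral_prod_right (f := fun (z : ℂ) (θ : ℝ) => W (circleMap z r θ))
        exact (hW.comp hcm.measurable).stronglyMeasurable
      have h2 : (fun z => Real.circleAverage W z r) = fun z : ℂ =>
          (2 * π)⁻¹ * ∫ θ in Ioc 0 (2 * π), W (circleMap z r θ) := by
        ext z
        rw [Real.circleAverage_def, smul_eq_mul, intervalIntegral.integral_of_le (by positivity)]
      rw [h2]
      exact h1.measurable.const_mul _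
    · intro z
      have hint : ∀ W' : ℂ → ℝ, Measurable W' → (∀ z, |W' z| ≤ C) → CircleIntegrable W' z r := by
        intro W' hW' hC'
        rw [CircleIntegrable, intervalIntegrable_iff]
        apply Measure.integrableOn_of_bounded (M := C)
        · rw [Set.uIoc_of_le (by positivity)]
          exact measure_Ioc_lt_top.ne
        · exact (hW'.comp (continuous_circleMap z r).measurable).aestronglyMeasurable
        · exact Eventually.of_forall (fun θ => by simpa using hC' _)
      rw [abs_le]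
      constructor
      · have h1 := Real.circleAverage_mono_on_of_le_circle (a := C) (f := fun z => -W z) (c := z)
          (R := r) (hint (fun z => -W z) hW.neg (fun z => by simpa using hC z))
          (fun w _ => by simpa using (neg_le.mpr (abs_le.mp (hC w)).1))
        have h2 : Real.circleAverage (fun z => -W z) z r = -Real.circleAverage W z r := by
          have := Real.circleAverage_fun_smul (a := (-1 : ℝ)) (f := W) (c := z) (R := r)
          simpa using this
        linarith
      · exact Real.circleAverage_mono_on_of_le_circle (hint W hW hC)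
          (fun w _ => (abs_le.mp (hC w)).2)
  obtain ⟨hψavgm, hψavgb⟩ := havgm ψ hψm _ hψK
  obtain ⟨hVavgm, hVavgb⟩ := havgm V hVm _ hVK
  have hI1 : Integrable fun z => V z * Real.circleAverage ψ z r :=
    hVi.mul_bdd (c := Λ + 9 * η) hψavgm.aestronglyMeasurable (Eventually.of_forall hψavgb)
  have hI2 : Integrable fun z => V z * ψ z :=
    hVi.mul_bdd (c := Λ + 9 * η) hψm.aestronglyMeasurable (Eventually.of_forall hψK)
  have hI3 : Integrable fun z => ψ z * Real.circleAverage V z r :=
    hψi.mul_bdd (c := K) hVavgm.aestronglyMeasurable (Eventually.of_forall hVavgb)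
  have hI4 : Integrable fun z => ψ z * V z :=
    hψi.mul_bdd (c := K) hVm.aestronglyMeasurable (Eventually.of_forall hVK)
  have hmain : ∫ z, (V z * Real.circleAverage ψ z r - V z * ψ z) ≤ 0 := by
    rw [integral_sub hI1 hI2, fubini_avg hVm hVi hVK hψm hψi hψK r]
    have h1 : ∫ z, ψ z * Real.circleAverage V z r ≤ ∫ z, ψ z * V z :=
      integral_mono hI3 hI4 hVavg
    have h2 : ∫ z, V z * ψ z = ∫ z, ψ z * V z := by
      congr 1
      ext z
      ring
    linarith
  have hPU : P ⊆ U := fun z hz => hSU z hz.1 (by linarith [hz.2.1])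
  have hEU : E ⊆ U := fun z hz => hSU z hz.1 hz.2.2
  have hPi : Integrable (P.indicator v) := by
    rw [integrable_indicator_iff hPm]
    exact hvi.mono_set hPU
  have hEi : Integrable (E.indicator v) := by
    rw [integrable_indicator_iff hEm]
    exact hvi.mono_set hEU
  have hlow : ∫ z, (η * r ^ 2 * P.indicator v z - 24 * Λ * r ^ 2 * E.indicator v z) ≤
      ∫ z, (V z * Real.circleAverage ψ z r - V z * ψ z) := by
    apply integral_mono
    · exact (hPi.const_mul _).sub (hEi.const_mul _)
    · exact hI1.sub hI2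
    · intro z
      have h1 := mul_le_mul_of_nonneg_left (hpt z) (hV0 z)
      have h2 : V z * P.indicator (fun _ => (1 : ℝ)) z = P.indicator v z := by
        by_cases hz : z ∈ P
        · rw [indicator_of_mem hz, indicator_of_mem hz, hV, indicator_of_mem (hPU hz), mul_one]
        · rw [indicator_of_notMem hz, indicator_of_notMem hz, mul_zero]
      have h3 : V z * E.indicator (fun _ => (1 : ℝ)) z = E.indicator v z := by
        by_cases hz : z ∈ E
        · rw [indicator_of_mem hz, indicator_of_mem hz, hV, indicator_of_mem (hEU hz), mul_one]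
        · rw [indicator_of_notMem hz, indicator_of_notMem hz, mul_zero]
      simp only
      rw [← h2, ← h3]
      linarith
  rw [integral_sub (hPi.const_mul _) (hEi.const_mul _), integral_const_mul, integral_const_mul,
    integral_indicator hPm, integral_indicator hEm] at hlow
  have hEle : ∫ z in E, v z ≤ ∫ z in ball (10 : ℂ) 9, v z := by
    apply setIntegral_mono_set (hvi.mono_set hD)
    · rw [EventuallyLE, ae_restrict_iff' measurableSet_ball]
      exact Eventually.of_forall fun z hz => hv0 z (hD hz)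
    · exact Eventually.of_forall fun z hz => hSD z hz.1 hz.2.1 hz.2.2
  have hball9 : ∫ z in ball (10 : ℂ) 9, v z ≤ 81 * π * v 10 := by
    have h1 : ∫ z in ball (10 : ℂ) 9, v z = ∫ z in ball (10 : ℂ) 9, V z := by
      apply setIntegral_congr_fun measurableSet_ball
      intro z hz
      rw [hV, indicator_of_mem (hD hz)]
    have h2 := area_le hVm hVK (10 : ℂ) (by norm_num : (0 : ℝ) < 9) (A := v 10) ?_
    · rw [h1]
      linarith
    · intro t ht
      have hsub : closedBall (10 : ℂ) t ⊆ U := (closedBall_subset_ball ht.2).trans hD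
      have h3 : Real.circleAverage V 10 t = Real.circleAverage v 10 t := by
        apply Real.circleAverage_congr_sphere
        intro w hw
        rw [abs_of_pos ht.1] at hw
        rw [hV, indicator_of_mem (hsub (sphere_subset_closedBall hw))]
      rw [h3]
      exact hv.circle ht.1 hsub
  have hr2 : 0 < r ^ 2 := by positivity
  have hfinal : η * ∫ z in P, v z ≤ 24 * Λ * (81 * π * v 10) := by
    have h1 : r ^ 2 * (η * ∫ z in P, v z) ≤ r ^ 2 * (24 * Λ * ∫ z in E, v z) := by
      have := hlow.trans hmain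
      nlinarith
    have h2 := le_of_mul_le_mul_left h1 hr2
    have h3 : 24 * Λ * ∫ z in E, v z ≤ 24 * Λ * (81 * π * v 10) :=
      mul_le_mul_of_nonneg_left (hEle.trans hball9) (by positivity)
    exact h2.trans h3
  rw [div_mul_eq_mul_div, le_div_iff₀ hη]
  linarith

lemma coe_cut {u : ℂ → EReal} {N : ℝ} {z : ℂ} (hz : u z ≠ ⊥) :
    ((cut u N z : ℝ) : EReal) = min (u z) (N : EReal) := by
  unfold cut
  apply EReal.coe_toReal
  · exact ne_of_lt ((min_le_right _ _).trans_lt (EReal.coe_lt_top N))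
  · intro h
    rcases min_eq_bot.mp h with h | h
    · exact hz h
    · exact EReal.coe_ne_bot N h

lemma cut_le {u : ℂ → EReal} {N : ℝ} {z : ℂ} (hz : u z ≠ ⊥) : cut u N z ≤ N := by
  have h1 := coe_cut (N := N) hz
  have h2 : ((cut u N z : ℝ) : EReal) ≤ (N : EReal) := h1 ▸ min_le_right _ _
  exact_mod_cast h2

lemma cut_ge {u : ℂ → EReal} {N K : ℝ} {z : ℂ} (hz : (K : EReal) ≤ u z) (hN : K ≤ N) :
    K ≤ cut u N z := by
  have h0 : u z ≠ ⊥ := fun h => by
    rw [h] at hz
    exact absurd (le_bot_iff.mp hz) (EReal.coe_ne_bot K)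
  have h1 := coe_cut (N := N) h0
  have h2 : (K : EReal) ≤ ((cut u N z : ℝ) : EReal) := by
    rw [h1]
    exact le_min hz (by exact_mod_cast hN)
  exact_mod_cast h2

lemma cut_lsc {u : ℂ → EReal} {U : Set ℂ} (hl : LowerSemicontinuousOn u U)
    (hb : ∀ z ∈ U, u z ≠ ⊥) (N : ℝ) : LowerSemicontinuousOn (cut u N) U := by
  intro z hz y hy
  have h1 : ((cut u N z : ℝ) : EReal) = min (u z) (N : EReal) := coe_cut (hb z hz)
  have h2 : (y : EReal) < min (u z) (N : EReal) := by
    rw [← h1]
    exact_mod_cast hy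
  have h3 := hl z hz (y : EReal) (h2.trans_le (min_le_left _ _))
  filter_upwards [h3, self_mem_nhdsWithin] with x hx hxU
  have h4 : (y : EReal) < ((cut u N x : ℝ) : EReal) := by
    rw [coe_cut (hb x hxU)]
    exact lt_min hx (h2.trans_le (min_le_right _ _))
  exact_mod_cast h4

lemma cut_supR {u : ℂ → EReal} {U : Set ℂ} (hu : Hyperharmonic U u) {K : ℝ}
    (hK : ∀ z ∈ U, (K : EReal) ≤ u z) {N : ℝ} (hN : K ≤ N) : SupR (cut u N) U := by
  have hbd : ∀ z ∈ U, |cut u N z| ≤ |K| + |N| := by
    intro z hz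
    have h1 := cut_le (N := N) (hu.2.1 z hz)
    have h2 := cut_ge (hK z hz) hN
    rw [abs_le]
    constructor
    · linarith [neg_abs_le K, abs_nonneg N]
    · linarith [le_abs_self N, abs_nonneg K]
  refine ⟨cut_lsc hu.1 hu.2.1 N, ?_, ⟨_, hbd⟩⟩
  intro a ha
  obtain ⟨ρ, hρ, hball, hmean⟩ := hu.2.2 a ha
  refine ⟨ρ, hρ, hball, fun r hr => ?_⟩
  have hsph : sphere a r ⊆ U :=
    (sphere_subset_closedBall.trans (closedBall_subset_closedBall hr.2.le)).trans hball
  have h1 := hmean r hr N
  have h2 : Real.circleAverage (cut u N) a r ≤ N := by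
    apply Real.circleAverage_mono_on_of_le_circle
    · exact circleIntegrable_of_lsc (cut_lsc hu.1 hu.2.1 N) hbd hr.1.le hsph
    · intro w hw
      rw [abs_of_pos hr.1] at hw
      exact cut_le (hu.2.1 w (hsph hw))
  have h3 : ((Real.circleAverage (cut u N) a r : ℝ) : EReal) ≤ ((cut u N a : ℝ) : EReal) := by
    rw [coe_cut (hu.2.1 a ha)]
    exact le_min h1 (by exact_mod_cast h2)
  exact_mod_cast h3

lemma SupR.add {v w : ℂ → ℝ} {U : Set ℂ} (hv : SupR v U) (hw : SupR w U) :
    SupR (fun z => v z + w z) U := by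
  obtain ⟨K₁, hK₁⟩ := hv.bdd
  obtain ⟨K₂, hK₂⟩ := hw.bdd
  refine ⟨hv.lsc.add hw.lsc, ?_, ⟨K₁ + K₂, fun z hz =>
    (abs_add_le _ _).trans (add_le_add (hK₁ z hz) (hK₂ z hz))⟩⟩
  intro a ha
  obtain ⟨ρ₁, hρ₁, hb₁, hm₁⟩ := hv.mean a ha
  obtain ⟨ρ₂, hρ₂, hb₂, hm₂⟩ := hw.mean a ha
  refine ⟨min ρ₁ ρ₂, lt_min hρ₁ hρ₂,
    (closedBall_subset_closedBall (min_le_left _ _)).trans hb₁, fun r hr => ?_⟩
  have hr1 : r < ρ₁ := hr.2.trans_le (min_le_left _ _)
  have hr2 : r < ρ₂ := hr.2.trans_le (min_le_right _ _)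
  have hsph : sphere a r ⊆ U :=
    (sphere_subset_closedBall.trans (closedBall_subset_closedBall hr1.le)).trans hb₁
  rw [Real.circleAverage_fun_add (circleIntegrable_of_lsc hv.lsc hK₁ hr.1.le hsph)
    (circleIntegrable_of_lsc hw.lsc hK₂ hr.1.le hsph)]
  exact add_le_add (hm₁ r ⟨hr.1, hr1⟩) (hm₂ r ⟨hr.1, hr2⟩)

lemma SupR.const (U : Set ℂ) (hU : IsOpen U) (c : ℝ) : SupR (fun _ => c) U := by
  refine ⟨continuousOn_const.lowerSemicontinuousOn, ?_, ⟨|c|, fun _ _ => le_rfl⟩⟩
  intro a ha
  obtain ⟨ρ, hρ, hb⟩ := Metric.isOpen_iff.mp hU a ha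
  refine ⟨ρ / 2, by linarith, (closedBall_subset_ball (by linarith)).trans hb, fun r _ => ?_⟩
  rw [Real.circleAverage_const]

lemma pow_sub_le (κ : ℕ) {z w : ℂ} (hz : ‖z‖ ≤ 1) (hw : ‖w‖ ≤ 1) :
    ‖w ^ κ - z ^ κ‖ ≤ κ * ‖w - z‖ := by
  induction κ with
  | zero => simp
  | succ n ih =>
    have h1 : w ^ (n + 1) - z ^ (n + 1) = w ^ n * (w - z) + z * (w ^ n - z ^ n) := by ring
    rw [h1]
    refine (norm_add_le _ _).trans ?_
    rw [norm_mul, norm_mul, norm_pow]
    have h2 : ‖w‖ ^ n ≤ 1 := pow_le_one₀ (norm_nonneg _) hw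
    have h3 : ‖w‖ ^ n * ‖w - z‖ ≤ 1 * ‖w - z‖ := mul_le_mul_of_nonneg_right h2 (norm_nonneg _)
    have h4 : ‖z‖ * ‖w ^ n - z ^ n‖ ≤ 1 * (n * ‖w - z‖) :=
      mul_le_mul hz ih (norm_nonneg _) zero_le_one
    push_cast
    linarith

/-- Data of the domain: disjoint sectors. -/
structure Data (S : ℕ → Set ℂ) (κ : ℕ → ℕ) : Prop where
  o : ∀ i, IsOpen (S i)
  pos : ∀ i, ∀ z ∈ S i, 0 < gg (κ i) z
  fr : ∀ i, ∀ z ∈ closure (S i), z ∉ S i → gg (κ i) z = 0
  disj : ∀ i j, i ≠ j → Disjoint (S i) (S j)
  far : ∀ i, ∀ z ∈ S i, 19 / 10 ≤ ‖z‖ → ‖z‖ < 3 → z ∈ ball (10 : ℂ) 9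
  one : ∀ i, 1 ≤ κ i

/-- The domain. -/
def Om (S : ℕ → Set ℂ) : Set ℂ := ball (10 : ℂ) 9 ∪ ⋃ i, (S i ∩ ball 0 3)

variable {S : ℕ → Set ℂ} {κ : ℕ → ℕ}

lemma Om_open (hd : Data S κ) : IsOpen (Om S) :=
  isOpen_ball.union (isOpen_iUnion fun i => (hd.o i).inter isOpen_ball)

lemma Om_bdd : Bornology.IsBounded (Om S) := by
  apply (isBounded_ball (x := (0 : ℂ)) (r := 20)).subset
  intro z hz
  rcases hz with hz | hz
  · rw [mem_ball_zero_iff]
    rw [mem_ball, dist_eq_norm] at hz
    have h1 : ‖z‖ ≤ ‖z - 10‖ + ‖(10 : ℂ)‖ := by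
      have := norm_add_le (z - 10) 10
      simpa using this
    have h2 : ‖(10 : ℂ)‖ = 10 := by simp
    linarith
  · obtain ⟨i, hi⟩ := mem_iUnion.mp hz
    exact ball_subset_ball (by norm_num) hi.2

lemma Om_sector (i : ℕ) : ∀ z ∈ S i, ‖z‖ < 3 → z ∈ Om S := fun z hz h3 =>
  Or.inr (mem_iUnion.mpr ⟨i, hz, by simpa using h3⟩)

lemma Om_near {z : ℂ} (hz : z ∈ Om S) (h1 : ‖z‖ ≤ 1) : ∃ i, z ∈ S i := by
  rcases hz with hz | hz
  · exfalso
    rw [mem_ball, dist_eq_norm] at hz
    have h2 : ‖(10 : ℂ)‖ ≤ ‖z - 10‖ + ‖z‖ := by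
      have := norm_sub_le z (z - 10)
      simpa [add_comm] using this
    have h3 : ‖(10 : ℂ)‖ = 10 := by simp
    linarith
  · obtain ⟨i, hi⟩ := mem_iUnion.mp hz
    exact ⟨i, hi.1⟩

/-- Estimate of a harmonic function dominated by two superharmonic ones. -/
lemma h_estimate (hd : Data S κ) {h : ℂ → ℝ} (hh : InnerProductSpace.HarmonicOnNhd h (Om S))
    {u u' : ℂ → EReal} (hu : Hyperharmonic (Om S) u) (hu' : Hyperharmonic (Om S) u')
    {K : ℝ} (hK0 : 0 ≤ K) (hKu : ∀ z ∈ Om S, ((-K : ℝ) : EReal) ≤ u z)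
    (hKu' : ∀ z ∈ Om S, ((-K : ℝ) : EReal) ≤ u' z)
    (h1 : ∀ z ∈ Om S, (h z : EReal) ≤ u z) (h2 : ∀ z ∈ Om S, ((-h z : ℝ) : EReal) ≤ u' z)
    {A A' : ℝ} (hA : u 10 = (A : EReal)) (hA' : u' 10 = (A' : EReal)) (i : ℕ)
    {z : ℂ} (hz : z ∈ S i) (hz2 : ‖z‖ ≤ 1 / 2) :
    |h z| ≤ 155520 * κ i ^ 2 * 3 ^ κ i * (A + A' + 2 * K) / gg (κ i) z ^ 3 := by
  set X : ℝ := gg (κ i) z with hX
  have hX0 : 0 < X := hd.pos i z hz
  have hκ : (1 : ℝ) ≤ κ i := by exact_mod_cast hd.one i
  have hX1 : X ≤ 1 / 2 := by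
    have h3 := gg_le (κ i) z
    have h4 : ‖z‖ ^ κ i ≤ ‖z‖ ^ 1 := pow_le_pow_of_le_one (norm_nonneg _) (by linarith) (hd.one i)
    rw [pow_one] at h4
    linarith
  set δ : ℝ := X / (2 * κ i) with hδ
  have hδ0 : 0 < δ := by rw [hδ]; positivity
  have hδ1 : δ ≤ 1 / 4 := by
    rw [hδ, div_le_iff₀ (by positivity)]
    nlinarith
  have hκδ : κ i * δ = X / 2 := by rw [hδ]; field_simp
  set η : ℝ := X / 20 with hη
  have hη0 : 0 < η := by rw [hη]; positivity
  have h10 : (10 : ℂ) ∈ Om S := Or.inl (mem_ball_self (by norm_num))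
  set P : Set ℂ := {w | w ∈ S i ∧ ‖w‖ < 2 ∧ 10 * η < gg (κ i) w} with hP
  have hgball : ∀ w ∈ ball z δ, 10 * η < gg (κ i) w ∧ ‖w‖ < 1 := by
    intro w hw
    rw [mem_ball, dist_eq_norm] at hw
    have hw1 : ‖w‖ < 1 := by
      have h3 : ‖w‖ ≤ ‖w - z‖ + ‖z‖ := by
        have := norm_add_le (w - z) z
        simpa using this
      linarith
    refine ⟨?_, hw1⟩
    have h3 := pow_sub_le (κ i) (z := z) (w := w) (by linarith) hw1.le
    have h4 : |gg (κ i) w - gg (κ i) z| ≤ ‖w ^ κ i - z ^ κ i‖ := by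
      have h5 : gg (κ i) w - gg (κ i) z = -(w ^ κ i - z ^ κ i).im := by
        simp [gg]
        ring
      rw [h5, abs_neg]
      exact Complex.abs_im_le_norm _
    have h5 : κ i * ‖w - z‖ < κ i * δ := mul_lt_mul_of_pos_left hw (by linarith)
    have h6 := (abs_le.mp h4).1
    rw [← hX] at h6
    rw [hη]
    linarith
  have hballS : ball z δ ⊆ S i := by
    apply (convex_ball z δ).isPreconnected.subset_of_closure_inter_subset (hd.o i)
    · exact ⟨z, mem_ball_self hδ0, hz⟩
    · intro w hw
      by_contra hwS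
      have h3 := hd.fr i w hw.1 hwS
      have h4 := (hgball w hw.2).1
      linarith
  have hballP : ball z δ ⊆ P := fun w hw =>
    ⟨hballS hw, by linarith [(hgball w hw).2], (hgball w hw).1⟩
  have hPU : P ⊆ Om S := fun w hw => Om_sector i w hw.1 (by linarith [hw.2.1])
  have hballU : ball z δ ⊆ Om S := hballP.trans hPU
  -- bound of h on a smaller closed ball
  have main : ∀ δ' ∈ Ioo 0 δ, π * δ' ^ 2 * |h z| ≤
      24 * 3 ^ κ i / η * (81 * π * (A + A' + 2 * K)) := by
    intro δ' hδ'
    have hcb : closedBall z δ' ⊆ ball z δ := closedBall_subset_ball hδ'.2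
    have hhc : ContinuousOn h (Om S) := fun w hw => (hh w hw).1.continuousAt.continuousWithinAt
    obtain ⟨H, hH⟩ := (isCompact_closedBall z δ').bddAbove_image
      (hhc.abs.mono (hcb.trans hballU))
    set N : ℝ := max H (|A| + |A'| + K) with hN
    have hNH : ∀ w ∈ closedBall z δ', |h w| ≤ N := fun w hw =>
      (hH (mem_image_of_mem _ hw)).trans (le_max_left _ _)
    have hNK : K ≤ N := by
      refine le_trans ?_ (le_max_right _ _)
      linarith [abs_nonneg A, abs_nonneg A']
    have hKN : -K ≤ N := by linarith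
    have hs1 := cut_supR hu hKu hKN
    have hs2 := cut_supR hu' hKu' hKN
    set v : ℂ → ℝ := fun w => cut u N w + cut u' N w + 2 * K with hv
    have hvs : SupR v (Om S) := (hs1.add hs2).add (SupR.const _ (Om_open hd) (2 * K))
    have hv0 : ∀ w ∈ Om S, 0 ≤ v w := by
      intro w hw
      have h3 := cut_ge (hKu w hw) hKN
      have h4 := cut_ge (hKu' w hw) hKN
      simp only [hv]
      linarith
    have hvh : ∀ w ∈ closedBall z δ', |h w| ≤ v w := by
      intro w hw
      have hwU := hballU (hcb hw)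
      have h5 := abs_le.mp (hNH w hw)
      have h3 := cut_ge (hKu w hwU) hKN
      have h4 := cut_ge (hKu' w hwU) hKN
      have h6 := cut_ge (h1 w hwU) h5.2
      have h7 := cut_ge (h2 w hwU) (by linarith [h5.1] : -h w ≤ N)
      simp only [hv]
      rw [abs_le]
      constructor <;> linarith
    have hv10 : v 10 ≤ A + A' + 2 * K := by
      have h3 : cut u N 10 ≤ A := by
        have h5 : ((cut u N 10 : ℝ) : EReal) ≤ (A : EReal) := by
          rw [coe_cut (hu.2.1 _ h10), hA]
          exact min_le_left _ _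
        exact_mod_cast h5
      have h4 : cut u' N 10 ≤ A' := by
        have h5 : ((cut u' N 10 : ℝ) : EReal) ≤ (A' : EReal) := by
          rw [coe_cut (hu'.2.1 _ h10), hA']
          exact min_le_left _ _
        exact_mod_cast h5
      simp only [hv]
      linarith
    have hkey := key (Om_open hd) Om_bdd (hd.o i) (hd.fr i) (Om_sector i) subset_union_left
      (hd.far i) hvs hv0 hη0
    have hvi := hvs.integrableOn (Om_open hd) Om_bdd hv0
    have hmono : ∫ w in ball z δ', v w ≤ ∫ w in P, v w := by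
      apply setIntegral_mono_set (hvi.mono_set hPU)
      · have hPm : MeasurableSet P := by
          apply (hd.o i).measurableSet.inter
          apply MeasurableSet.inter
          · exact (isOpen_lt continuous_norm continuous_const).measurableSet
          · exact (isOpen_lt continuous_const (gg_continuous _)).measurableSet
        rw [EventuallyLE, ae_restrict_iff' hPm]
        exact Eventually.of_forall fun w hw => hv0 w (hPU hw)
      · exact Eventually.of_forall fun w hw => hballP (hcb (ball_subset_closedBall hw))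
    have harea : π * δ' ^ 2 * |h z| ≤ ∫ w in ball z δ', v w := by
      set V : ℂ → ℝ := (Om S).indicator v with hV
      have hVm : Measurable V := hvs.indicator_measurable (Om_open hd) hv0
      obtain ⟨B, hB⟩ := hvs.bdd
      have hB0 : 0 ≤ B := (abs_nonneg _).trans (hB 10 h10)
      have hVB : ∀ w, |(fun w => -V w) w| ≤ B := by
        intro w
        simp only [abs_neg]
        by_cases hw : w ∈ Om S
        · rw [hV, indicator_of_mem hw]
          exact hB w hw
        · rw [hV, indicator_of_notMem hw]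
          simpa using hB0
      have hVm' : Measurable fun w => -V w := hVm.neg
      have h3 := area_le hVm' hVB z hδ'.1 (A := -|h z|) ?_
      · rw [integral_neg] at h3
        have h4 : ∫ w in ball z δ', V w = ∫ w in ball z δ', v w := by
          apply setIntegral_congr_fun measurableSet_ball
          intro w hw
          rw [hV, indicator_of_mem (hballU (hcb (ball_subset_closedBall hw)))]
        linarith
      · intro t ht
        have hsub : closedBall z t ⊆ closedBall z δ' := closedBall_subset_closedBall ht.2.le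
        have hsubU : closedBall z t ⊆ Om S := hsub.trans (hcb.trans hballU)
        have e1 : Real.circleAverage (fun w => -V w) z t = -Real.circleAverage v z t := by
          have h4 := Real.circleAverage_fun_smul (a := (-1 : ℝ)) (f := v) (c := z) (R := t)
          have h5 : Real.circleAverage (fun w => -V w) z t =
              Real.circleAverage (fun w => (-1 : ℝ) • v w) z t := by
            apply Real.circleAverage_congr_sphere
            intro w hw
            rw [abs_of_pos ht.1] at hw
            simp only [smul_eq_mul]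
            rw [hV, indicator_of_mem (hsubU (sphere_subset_closedBall hw))]
            ring
          rw [h5, h4]
          simp
        rw [e1]
        have e2 : Real.circleAverage h z t = h z := by
          apply InnerProductSpace.HarmonicOnNhd.circleAverage_eq
          rw [abs_of_pos ht.1]
          exact fun w hw => hh w (hsubU hw)
        have hint1 : CircleIntegrable h z t := by
          apply ContinuousOn.circleIntegrable ht.1.le
          exact hhc.mono (sphere_subset_closedBall.trans hsubU)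
        have e3 : |h z| ≤ Real.circleAverage v z t := by
          calc |h z| = |Real.circleAverage h z t| := by rw [e2]
            _ ≤ Real.circleAverage |h| z t := Real.abs_circleAverage_le_circleAverage_abs
            _ ≤ Real.circleAverage v z t := by
                apply Real.circleAverage_mono
                · exact hint1.abs
                · exact circleIntegrable_of_lsc hvs.lsc hB ht.1.le
                    (sphere_subset_closedBall.trans hsubU)
                · intro w hw
                  rw [abs_of_pos ht.1] at hw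
                  exact hvh w (hsub (sphere_subset_closedBall hw))
        linarith
    calc π * δ' ^ 2 * |h z| ≤ ∫ w in P, v w := harea.trans hmono
      _ ≤ 24 * 3 ^ κ i / η * (81 * π * v 10) := hkey
      _ ≤ 24 * 3 ^ κ i / η * (81 * π * (A + A' + 2 * K)) := by
          apply mul_le_mul_of_nonneg_left _ (by positivity)
          apply mul_le_mul_of_nonneg_left hv10 (by positivity)
  have hlim : π * δ ^ 2 * |h z| ≤ 24 * 3 ^ κ i / η * (81 * π * (A + A' + 2 * K)) := by
    have hc : Continuous fun d : ℝ => π * d ^ 2 * |h z| := by fun_prop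
    have h3 : Tendsto (fun d : ℝ => π * d ^ 2 * |h z|) (𝓝[<] δ) (𝓝 (π * δ ^ 2 * |h z|)) :=
      (hc.tendsto δ).mono_left nhdsWithin_le_nhds
    apply le_of_tendsto h3
    filter_upwards [Ioo_mem_nhdsLT hδ0] with d hd'
    exact main d hd'
  rw [le_div_iff₀ (by positivity)]
  have hπ : 0 < π := Real.pi_pos
  rw [hδ, hη] at hlim
  have h3 : π * (X / (2 * κ i)) ^ 2 * |h z| = π / (4 * κ i ^ 2) * (|h z| * X ^ 2) := by
    field_simp
    ring
  have h4 : 24 * 3 ^ κ i / (X / 20) * (81 * π * (A + A' + 2 * K)) =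
      π / (4 * κ i ^ 2) * (155520 * κ i ^ 2 * 3 ^ κ i * (A + A' + 2 * K) / X) := by
    field_simp
    ring
  rw [h3, h4] at hlim
  have h5 := le_of_mul_le_mul_left hlim (by positivity)
  rw [le_div_iff₀ hX0] at h5
  linarith

/-- the barrier in the variable `ω`. -/
noncomputable def ph (ω : ℂ) : ℝ := (((1 + ω) ^ 3)⁻¹ - ((1 - ω) ^ 3)⁻¹).im

lemma im_inv_cube (p x : ℝ) :
    ((((p : ℂ) - x * I) ^ 3)⁻¹).im = x * (3 * p ^ 2 - x ^ 2) / (p ^ 2 + x ^ 2) ^ 3 := by
  have h1 : ((p : ℂ) - x * I) ^ 3 = ((p ^ 3 - 3 * p * x ^ 2 : ℝ) : ℂ) +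
      ((x ^ 3 - 3 * p ^ 2 * x : ℝ) : ℂ) * I := by
    push_cast
    ring_nf
    simp only [show I ^ 3 = -I from by rw [pow_succ, I_sq]; ring, I_sq]
    ring
  rw [h1, Complex.inv_im, Complex.normSq_add_mul_I]
  have h2 : (((p ^ 3 - 3 * p * x ^ 2 : ℝ) : ℂ) + ((x ^ 3 - 3 * p ^ 2 * x : ℝ) : ℂ) * I).im =
      x ^ 3 - 3 * p ^ 2 * x := by
    simp only [Complex.add_im, Complex.ofReal_im, Complex.mul_im, Complex.ofReal_re,
      Complex.I_im, Complex.I_re]
    ring
  rw [h2]
  have h3 : (p ^ 3 - 3 * p * x ^ 2) ^ 2 + (x ^ 3 - 3 * p ^ 2 * x) ^ 2 = (p ^ 2 + x ^ 2) ^ 3 := by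
    ring
  rw [h3]
  ring

lemma ph_eq (ω : ℂ) (hω : ω.im < 0) : ph ω =
    (-ω.im) * (3 * (1 + ω.re) ^ 2 - (-ω.im) ^ 2) / ((1 + ω.re) ^ 2 + (-ω.im) ^ 2) ^ 3 +
    (-ω.im) * (3 * (1 - ω.re) ^ 2 - (-ω.im) ^ 2) / ((1 - ω.re) ^ 2 + (-ω.im) ^ 2) ^ 3 := by
  have hx : 0 < (-ω.im) ^ 2 := by
    have : 0 < -ω.im := by linarith
    positivity
  unfold ph
  rw [Complex.sub_im]
  have h1 : 1 + ω = ((1 + ω.re : ℝ) : ℂ) - ((-ω.im : ℝ) : ℂ) * I := by
    apply Complex.ext <;> simp
  have h2 : 1 - ω = ((1 - ω.re : ℝ) : ℂ) - ((ω.im : ℝ) : ℂ) * I := by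
    apply Complex.ext <;> simp
  rw [h1, h2, im_inv_cube, im_inv_cube]
  ring

lemma ph_nonneg {ω : ℂ} (hω : ω.im < 0) (h : -ω.im + |ω.re| ≤ 1) : 0 ≤ ph ω := by
  rw [ph_eq ω hω]
  set x : ℝ := -ω.im with hx
  have hx0 : 0 < x := by linarith
  have h1 : x ≤ 1 + ω.re := by linarith [neg_abs_le ω.re]
  have h2 : x ≤ 1 - ω.re := by linarith [le_abs_self ω.re]
  apply add_nonneg
  · apply div_nonneg _ (by positivity)
    apply mul_nonneg hx0.le
    nlinarith
  · apply div_nonneg _ (by positivity)
    apply mul_nonneg hx0.le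
    nlinarith

lemma ph_ge {ω : ℂ} (hω : ω.im < 0) (h : -ω.im + |ω.re| = 1) :
    1 / (4 * (-ω.im) ^ 3) ≤ ph ω := by
  rw [ph_eq ω hω]
  set x : ℝ := -ω.im with hx
  have hx0 : 0 < x := by linarith
  have h1 : x ≤ 1 + ω.re := by linarith [neg_abs_le ω.re]
  have h2 : x ≤ 1 - ω.re := by linarith [le_abs_self ω.re]
  have hv : x * (3 * x ^ 2 - x ^ 2) / (x ^ 2 + x ^ 2) ^ 3 = 1 / (4 * x ^ 3) := by
    field_simp
    ring
  have t1 : 0 ≤ x * (3 * (1 + ω.re) ^ 2 - x ^ 2) / ((1 + ω.re) ^ 2 + x ^ 2) ^ 3 := by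
    apply div_nonneg _ (by positivity)
    apply mul_nonneg hx0.le
    nlinarith
  have t2 : 0 ≤ x * (3 * (1 - ω.re) ^ 2 - x ^ 2) / ((1 - ω.re) ^ 2 + x ^ 2) ^ 3 := by
    apply div_nonneg _ (by positivity)
    apply mul_nonneg hx0.le
    nlinarith
  rcases le_total 0 ω.re with h0 | h0
  · rw [abs_of_nonneg h0] at h
    have h3 : 1 - ω.re = x := by linarith
    rw [h3, hv]
    linarith
  · rw [abs_of_nonpos h0] at h
    have h3 : 1 + ω.re = x := by linarith
    rw [h3, hv]
    linarith

lemma ph_le {ω : ℂ} (hω : ω.im < 0) (h : ‖ω‖ ≤ 1 / 2) : ph ω ≤ 864 * ‖ω‖ := by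
  rw [ph_eq ω hω]
  set x : ℝ := -ω.im with hx
  have hx0 : 0 < x := by linarith
  have hxn : x ≤ ‖ω‖ := (neg_le_abs _).trans (Complex.abs_im_le_norm ω)
  have hre := abs_le.mp ((Complex.abs_re_le_norm ω).trans h)
  have key : ∀ p : ℝ, 1 / 2 ≤ p → p ≤ 3 / 2 →
      x * (3 * p ^ 2 - x ^ 2) / (p ^ 2 + x ^ 2) ^ 3 ≤ 432 * x := by
    intro p hp1 hp2
    have hp : (1 / 4 : ℝ) ≤ p ^ 2 + x ^ 2 := by nlinarith
    have hp3 : (1 / 4 : ℝ) ^ 3 ≤ (p ^ 2 + x ^ 2) ^ 3 := pow_le_pow_left₀ (by norm_num) hp 3
    rw [div_le_iff₀ (by positivity)]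
    have h1 : 3 * p ^ 2 - x ^ 2 ≤ 27 / 4 := by nlinarith
    have h2 : x * (3 * p ^ 2 - x ^ 2) ≤ x * (27 / 4) := mul_le_mul_of_nonneg_left h1 hx0.le
    have h3 : 432 * x * (1 / 4 : ℝ) ^ 3 ≤ 432 * x * (p ^ 2 + x ^ 2) ^ 3 :=
      mul_le_mul_of_nonneg_left hp3 (by positivity)
    linarith
  have h1 := key (1 + ω.re) (by linarith) (by linarith)
  have h2 := key (1 - ω.re) (by linarith) (by linarith)
  linarith

/-- Adding a nonpositive real function with the local super-mean property. -/
lemma hyper_add {U : Set ℂ} {u : ℂ → EReal} (hu : Hyperharmonic U u) {K : ℝ}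
    (hK : ∀ z ∈ U, (K : EReal) ≤ u z) {b : ℂ → ℝ} (hbl : LowerSemicontinuousOn b U)
    (hb0 : ∀ z, b z ≤ 0) (hbm : ∀ a ∈ U, ∃ ρ > 0, closedBall a ρ ⊆ U ∧
      ∀ r ∈ Ioo 0 ρ, Real.circleAverage b a r ≤ b a) :
    Hyperharmonic U (fun z => u z + (b z : EReal)) := by
  have hnb : ∀ z ∈ U, u z + (b z : EReal) ≠ ⊥ := by
    intro z hz
    rw [ne_eq, EReal.add_eq_bot_iff, not_or]
    exact ⟨hu.2.1 z hz, EReal.coe_ne_bot _⟩
  have hlsc : LowerSemicontinuousOn (fun z => u z + (b z : EReal)) U := by
    apply LowerSemicontinuousOn.add'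
    · exact hu.1
    · intro z hz y hy
      induction y with
      | bot => exact Eventually.of_forall fun x => EReal.bot_lt_coe _
      | top => exact absurd hy not_top_lt
      | coe y =>
        have h1 := hbl z hz y
          (EReal.coe_lt_coe_iff.mp (show (y : EReal) < ((b z : ℝ) : EReal) from hy))
        filter_upwards [h1] with x hx
        exact EReal.coe_lt_coe_iff.mpr hx
    · intro z _
      exact EReal.continuousAt_add (Or.inr (EReal.coe_ne_bot _)) (Or.inr (EReal.coe_ne_top _))
  refine ⟨hlsc, hnb, ?_⟩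
  intro a ha
  obtain ⟨ρ₁, hρ₁, hball₁, hm₁⟩ := hu.2.2 a ha
  obtain ⟨ρ₂, hρ₂, hball₂, hm₂⟩ := hbm a ha
  refine ⟨min ρ₁ ρ₂, lt_min hρ₁ hρ₂,
    (closedBall_subset_closedBall (min_le_left _ _)).trans hball₁, ?_⟩
  intro r hr N
  show _ ≤ u a + (b a : EReal)
  have hr1 : r < ρ₁ := hr.2.trans_le (min_le_left _ _)
  have hr2 : r < ρ₂ := hr.2.trans_le (min_le_right _ _)
  have hcb : closedBall a r ⊆ U := (closedBall_subset_closedBall hr1.le).trans hball₁
  have hsph : sphere a r ⊆ U := sphere_subset_closedBall.trans hcb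
  obtain ⟨B₀, hB₀⟩ := (hbl.mono hcb).bddBelow_of_isCompact (isCompact_closedBall a r)
  set B : ℝ := |B₀| with hB
  have hB0 : 0 ≤ B := abs_nonneg _
  have hbB : ∀ z ∈ closedBall a r, -B ≤ b z := by
    intro z hz
    have h1 := hB₀ (mem_image_of_mem b hz)
    linarith [neg_abs_le B₀]
  by_cases htop : u a = ⊤
  · have : u a + (b a : EReal) = ⊤ := by
      rw [htop]
      exact EReal.top_add_coe _
    rw [this]
    exact le_top
  have hua : u a ≠ ⊥ := hu.2.1 a ha
  obtain ⟨x, hx⟩ : ∃ x : ℝ, u a = (x : EReal) := ⟨(u a).toReal, (EReal.coe_toReal htop hua).symm⟩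
  set N' : ℝ := max (N + B) K with hN'
  have hs := cut_supR hu hK (le_max_right _ _ : K ≤ N')
  obtain ⟨C₁, hC₁⟩ := hs.bdd
  have hint1 : CircleIntegrable (cut u N') a r :=
    circleIntegrable_of_lsc hs.lsc hC₁ hr.1.le hsph
  have hint2 : CircleIntegrable b a r := by
    apply circleIntegrable_of_lsc (hbl.mono hsph) (K := B) _ hr.1.le le_rfl
    intro z hz
    rw [abs_le]
    exact ⟨hbB z (sphere_subset_closedBall hz), (hb0 z).trans hB0⟩
  have hcutle : ∀ z ∈ sphere a r, cut (fun z => u z + (b z : EReal)) N z ≤ cut u N' z + b z := by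
    intro z hz
    have hzU := hsph hz
    have hbz := hbB z (sphere_subset_closedBall hz)
    have h1 : ((cut (fun z => u z + (b z : EReal)) N z : ℝ) : EReal) =
        min (u z + (b z : EReal)) (N : EReal) := coe_cut (hnb z hzU)
    have h2 : ((cut u N' z : ℝ) : EReal) = min (u z) (N' : EReal) := coe_cut (hu.2.1 z hzU)
    rcases le_total (u z) (N' : EReal) with h3 | h3
    · rw [min_eq_left h3] at h2
      have h4 : ((cut (fun z => u z + (b z : EReal)) N z : ℝ) : EReal) ≤
          ((cut u N' z + b z : ℝ) : EReal) := by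
        rw [h1, EReal.coe_add, h2]
        exact min_le_left _ _
      exact_mod_cast h4
    · rw [min_eq_right h3] at h2
      have h5 : cut u N' z = N' := by exact_mod_cast h2
      have h4 : cut (fun z => u z + (b z : EReal)) N z ≤ N := cut_le (hnb z hzU)
      have h6 : N + B ≤ N' := le_max_left _ _
      rw [h5]
      linarith
  have hcutbd : ∀ z ∈ sphere a r, |cut (fun z => u z + (b z : EReal)) N z| ≤
      |min (K - B) N| + |N| := by
    intro z hz
    have hzU := hsph hz
    have hbz := hbB z (sphere_subset_closedBall hz)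
    have h1 : ((min (K - B) N : ℝ) : EReal) ≤ u z + (b z : EReal) := by
      have h2 : ((K - B : ℝ) : EReal) ≤ u z + (b z : EReal) := by
        have h3 : ((K - B : ℝ) : EReal) = (K : EReal) + ((-B : ℝ) : EReal) := by
          rw [← EReal.coe_add]
          congr 1
        rw [h3]
        exact add_le_add (hK z hzU) (by exact_mod_cast hbz)
      exact le_trans (by exact_mod_cast min_le_left _ _) h2
    have h2 : min (K - B) N ≤ cut (fun z => u z + (b z : EReal)) N z :=
      cut_ge h1 (min_le_right _ _)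
    have h3 : cut (fun z => u z + (b z : EReal)) N z ≤ N := cut_le (hnb z hzU)
    rw [abs_le]
    constructor
    · linarith [neg_abs_le (min (K - B) N), abs_nonneg N]
    · linarith [le_abs_self N, abs_nonneg (min (K - B) N)]
  have hint3 : CircleIntegrable (cut (fun z => u z + (b z : EReal)) N) a r :=
    circleIntegrable_of_lsc ((cut_lsc hlsc hnb N).mono hsph) hcutbd hr.1.le le_rfl
  have h1 : Real.circleAverage (cut (fun z => u z + (b z : EReal)) N) a r ≤
      Real.circleAverage (cut u N') a r + Real.circleAverage b a r := by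
    rw [← Real.circleAverage_fun_add hint1 hint2]
    apply Real.circleAverage_mono hint3 (hint1.add hint2)
    intro z hz
    rw [abs_of_pos hr.1] at hz
    exact hcutle z hz
  have h2 := hm₁ r ⟨hr.1, hr1⟩ N'
  have h3 := hm₂ r ⟨hr.1, hr2⟩
  rw [hx] at h2 ⊢
  have h4 : Real.circleAverage (cut u N') a r ≤ x := by exact_mod_cast h2
  have h5 : Real.circleAverage (cut (fun z => u z + (b z : EReal)) N) a r ≤ x + b a := by
    linarith
  exact_mod_cast h5

variable {S : ℕ → Set ℂ} {κ : ℕ → ℕ}

/-- One-sided bound near the origin. -/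
lemma one_sided (hd : Data S κ) {f : ℂ → EReal} {h : ℂ → ℝ}
    (hh : InnerProductSpace.HarmonicOnNhd h (Om S))
    (hup : ∀ z ∈ Om S, upperPWB (Om S) f z = (h z : EReal))
    {C : ℝ} (hC : 0 ≤ C)
    (hest : ∀ i, ∀ z ∈ S i, ‖z‖ ≤ 1 / 2 → |h z| ≤ C * κ i ^ 2 * 3 ^ κ i / gg (κ i) z ^ 3)
    {R M : ℝ} (hR : 0 < R) (hR1 : R ≤ 1 / 2) (hM : 0 ≤ M)
    (hf : ∀ ζ ∈ ball (0 : ℂ) (2 * R) ∩ frontier (Om S), f ζ ≤ (M : EReal)) :
    ∀ z ∈ ball (0 : ℂ) (R ^ 4 / 12) ∩ Om S, h z ≤ M + (3456 * C + 864) := by
  intro z0 hz0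
  have hz0R : ‖z0‖ < R ^ 4 / 12 := by simpa using hz0.1
  have hR4 : R ^ 4 ≤ R := by
    have : R ^ 4 ≤ R ^ 1 := pow_le_pow_of_le_one hR.le (by linarith) (by norm_num)
    rwa [pow_one] at this
  have hz01 : ‖z0‖ ≤ 1 := by linarith
  obtain ⟨i, hi⟩ := Om_near hz0.2 hz01
  -- abbreviations
  have hκ1 : 1 ≤ κ i := hd.one i
  set k : ℕ := κ i with hk
  have hRC : (R : ℂ) ≠ 0 := by exact_mod_cast hR.ne'
  set om : ℂ → ℂ := fun z => (z / R) ^ k with hom
  have homc : Continuous om := by simp only [hom]; fun_prop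
  have homd : Differentiable ℂ om := by simp only [hom]; fun_prop
  have homim : ∀ z, -(om z).im = gg k z / R ^ k := by
    intro z
    simp only [hom, gg, div_pow]
    rw [← Complex.ofReal_pow, Complex.div_ofReal_im]
    ring
  have homim' : ∀ z ∈ S i, (om z).im < 0 := by
    intro z hz
    have h1 := homim z
    have h2 : 0 < gg k z / R ^ k := div_pos (hd.pos i z hz) (by positivity)
    linarith
  set C0 : ℝ := 4 * (C * k ^ 2 * 3 ^ k / R ^ (3 * k)) + 1 with hC0
  have hC0pos : 0 < C0 := by rw [hC0]; positivity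
  set kk : ℂ → ℝ := fun z => M + C0 * ph (om z) - h z with hkk
  set Z : Set ℂ := {z | z ∈ S i ∧ -(om z).im + |(om z).re| < 1} with hZ
  have hZo : IsOpen Z := by
    have h1 : IsOpen {z | -(om z).im + |(om z).re| < 1} := by
      apply isOpen_lt _ continuous_const
      exact ((Complex.continuous_im.comp homc).neg).add ((Complex.continuous_re.comp homc).abs)
    exact (hd.o i).inter h1
  have hZR : ∀ z, -(om z).im + |(om z).re| ≤ 1 → (om z).im ≤ 0 → ‖z‖ ≤ R := by
    intro z hz hz'
    have h1 : ‖om z‖ ≤ 1 := by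
      refine (Complex.norm_le_abs_re_add_abs_im _).trans ?_
      rw [abs_of_nonpos hz']
      linarith
    simp only [hom, norm_pow] at h1
    have h2 : ‖z / R‖ ≤ 1 := by
      by_contra hcon
      push Not at hcon
      exact absurd h1 (not_le.mpr (one_lt_pow₀ hcon (by omega)))
    rw [norm_div, Complex.norm_real, Real.norm_eq_abs, abs_of_pos hR, div_le_one hR] at h2
    exact h2
  have hZR' : ∀ z ∈ Z, ‖z‖ ≤ R := fun z hz => hZR z hz.2.le (homim' z hz.1).le
  have hZU : Z ⊆ Om S := fun z hz => Om_sector i z hz.1 (by linarith [hZR' z hz])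
  -- regularity of kk on the sector
  set W : Set ℂ := S i ∩ Om S with hW
  have hWo : IsOpen W := (hd.o i).inter (Om_open hd)
  have hkkh : InnerProductSpace.HarmonicOnNhd kk W := by
    intro z hz
    have h1 : om z ≠ 1 ∧ om z ≠ -1 := by
      have := homim' z hz.1
      constructor
      · intro h
        rw [h] at this
        simp at this
      · intro h
        rw [h] at this
        simp at this
    have hA : AnalyticAt ℂ (fun z => -(I * ((((1 + om z) ^ 3)⁻¹ - ((1 - om z) ^ 3)⁻¹)))) z := by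
      have ho : AnalyticAt ℂ om z := homd.analyticAt z
      apply AnalyticAt.neg
      apply analyticAt_const.mul
      apply AnalyticAt.sub
      · apply AnalyticAt.inv
        · exact (analyticAt_const.add ho).pow 3
        · apply pow_ne_zero
          intro h
          exact h1.2 (by linear_combination h)
      · apply AnalyticAt.inv
        · exact (analyticAt_const.sub ho).pow 3
        · apply pow_ne_zero
          intro h
          exact h1.1 (by linear_combination -h)
    have hB := hA.harmonicAt_re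
    have hB' : InnerProductSpace.HarmonicAt (fun z => ph (om z)) z := by
      convert hB using 2 with w
      simp [ph]
    have hM' : InnerProductSpace.HarmonicAt (fun _ : ℂ => M) z := by
      exact (analyticAt_const (𝕜 := ℂ) (v := (M : ℂ)) (x := z)).harmonicAt_re
    have h2 : InnerProductSpace.HarmonicAt
        (((fun _ : ℂ => M) + C0 • (fun z => ph (om z))) + (-1 : ℝ) • h) z :=
      (hM'.add (hB'.const_smul)).add ((hh z hz.2).const_smul)
    convert h2 using 2 with w
    ext w
    simp [hkk]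
    ring
  have hkkc : ContinuousOn kk W := fun z hz => (hkkh z hz).1.continuousAt.continuousWithinAt
  -- on the crosscut kk is positive
  have hcross : ∀ z ∈ S i, -(om z).im + |(om z).re| = 1 → 0 < kk z := by
    intro z hz hz1
    have hzR : ‖z‖ ≤ R := hZR z hz1.le (homim' z hz).le
    have h1 := ph_ge (homim' z hz) hz1
    have h2 := hest i z hz (by linarith)
    have hg : 0 < gg k z := hd.pos i z hz
    rw [homim z] at h1
    have h3 : 1 / (4 * (gg k z / R ^ k) ^ 3) = R ^ (3 * k) / (4 * gg k z ^ 3) := by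
      rw [div_pow, ← pow_mul, mul_comm k 3]
      field_simp
    rw [h3] at h1
    have h4 : C * k ^ 2 * 3 ^ k / gg k z ^ 3 < C0 * (R ^ (3 * k) / (4 * gg k z ^ 3)) := by
      have h5 : C0 * (R ^ (3 * k) / (4 * gg k z ^ 3)) =
          C * k ^ 2 * 3 ^ k / gg k z ^ 3 + R ^ (3 * k) / (4 * gg k z ^ 3) := by
        rw [hC0]
        field_simp
      rw [h5]
      have : 0 < R ^ (3 * k) / (4 * gg k z ^ 3) := by positivity
      linarith
    have h5 : C0 * (R ^ (3 * k) / (4 * gg k z ^ 3)) ≤ C0 * ph (om z) :=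
      mul_le_mul_of_nonneg_left h1 hC0pos.le
    have h6 : h z ≤ |h z| := le_abs_self _
    simp only [hkk]
    linarith
  -- the glued function
  set b : ℂ → ℝ := fun z => open Classical in if z ∈ Z then min 0 (kk z) else 0 with hb
  have hb0 : ∀ z, b z ≤ 0 := by
    intro z
    simp only [hb]
    split_ifs
    · exact min_le_left _ _
    · exact le_rfl
  have hbZ : ∀ z ∈ Z, b z = min 0 (kk z) := fun z hz => by simp [hb, hz]
  have hbn : ∀ z, z ∉ Z → b z = 0 := fun z hz => by simp [hb, hz]
  have hbl : LowerSemicontinuousOn b (Om S) := by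
    intro z hz y hy
    by_cases hzZ : z ∈ Z
    · rw [hbZ z hzZ] at hy
      have hzW : z ∈ W := ⟨hzZ.1, hZU hzZ⟩
      have h1 : ContinuousAt (fun z => min 0 (kk z)) z :=
        continuousAt_const.min (hkkc.continuousAt (hWo.mem_nhds hzW))
      have h2 : ∀ᶠ x in 𝓝 z, y < min 0 (kk x) := h1.eventually (lt_mem_nhds hy)
      apply mem_nhdsWithin_of_mem_nhds
      filter_upwards [h2, hZo.mem_nhds hzZ] with x hx hxZ
      rw [hbZ x hxZ]
      exact hx
    · rw [hbn z hzZ] at hy
      by_cases hzc : z ∈ closure Z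
      · -- z on the crosscut
        have hzS : z ∈ S i := by
          have h1 : z ∈ closure (S i) := closure_mono (fun w hw => hw.1) hzc
          have h2 : ‖z‖ ≤ R := by
            have h3 : closure Z ⊆ closedBall 0 R :=
              closure_minimal (fun w hw => by simpa using hZR' w hw) isClosed_closedBall
            exact mem_closedBall_zero_iff.mp (h3 hzc)
          obtain ⟨j, hj⟩ := Om_near hz (by linarith)
          by_cases hij : i = j
          · rw [hij]
            exact hj
          · exfalso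
            have h3 := (hd.disj i j hij)
            obtain ⟨w, hw1, hw2⟩ := mem_closure_iff.mp h1 (S j) (hd.o j) hj
            exact (Set.disjoint_left.mp h3) hw2 hw1
        have h1 : -(om z).im + |(om z).re| ≤ 1 := by
          have hcl : IsClosed {w | -(om w).im + |(om w).re| ≤ 1} := by
            apply isClosed_le _ continuous_const
            exact ((Complex.continuous_im.comp homc).neg).add
              ((Complex.continuous_re.comp homc).abs)
          exact closure_minimal (fun w hw => hw.2.le) hcl hzc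
        have h2 : -(om z).im + |(om z).re| = 1 := by
          rcases h1.lt_or_eq with h3 | h3
          · exact absurd ⟨hzS, h3⟩ hzZ
          · exact h3
        have h3 := hcross z hzS h2
        have hzW : z ∈ W := ⟨hzS, hz⟩
        have h4 : ∀ᶠ x in 𝓝 z, 0 < kk x :=
          (hkkc.continuousAt (hWo.mem_nhds hzW)).eventually (lt_mem_nhds h3)
        apply mem_nhdsWithin_of_mem_nhds
        filter_upwards [h4] with x hx
        by_cases hxZ : x ∈ Z
        · rw [hbZ x hxZ, min_eq_left hx.le]
          exact hy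
        · rw [hbn x hxZ]
          exact hy
      · apply mem_nhdsWithin_of_mem_nhds
        filter_upwards [isClosed_closure.isOpen_compl.mem_nhds hzc] with x hx
        rw [hbn x (fun h => hx (subset_closure h))]
        exact hy
  have hbm : ∀ a ∈ Om S, ∃ ρ > 0, closedBall a ρ ⊆ Om S ∧
      ∀ r ∈ Ioo 0 ρ, Real.circleAverage b a r ≤ b a := by
    intro a ha
    have hle0 : ∀ r : ℝ, Real.circleAverage b a r ≤ 0 := by
      intro r
      have h1 := Real.circleAverage_nonneg_of_nonneg (f := fun z => -b z) (c := a) (R := r)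
        (fun w _ => by simpa using hb0 w)
      have h2 := Real.circleAverage_fun_smul (a := (-1 : ℝ)) (f := b) (c := a) (R := r)
      simp only [neg_smul, one_smul] at h2
      linarith
    by_cases haZ : a ∈ Z
    · obtain ⟨ρ, hρ, hρs⟩ := Metric.isOpen_iff.mp hZo a haZ
      refine ⟨ρ / 2, by linarith, ?_, ?_⟩
      · exact ((closedBall_subset_ball (by linarith)).trans hρs).trans hZU
      · intro r hr
        have hcb : closedBall a r ⊆ Z := (closedBall_subset_ball (by linarith [hr.2])).trans hρs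
        rw [hbZ a haZ]
        apply le_min (hle0 r)
        have h1 : Real.circleAverage kk a r = kk a := by
          apply InnerProductSpace.HarmonicOnNhd.circleAverage_eq
          rw [abs_of_pos hr.1]
          intro w hw
          exact hkkh w ⟨(hcb hw).1, hZU (hcb hw)⟩
        rw [← h1]
        have hkks : ContinuousOn kk (sphere a r) := hkkc.mono fun w hw =>
          ⟨(hcb (sphere_subset_closedBall hw)).1, hZU (hcb (sphere_subset_closedBall hw))⟩
        have hcongr : Real.circleAverage b a r =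
            Real.circleAverage (fun z => min 0 (kk z)) a r := by
          apply Real.circleAverage_congr_sphere
          intro w hw
          rw [abs_of_pos hr.1] at hw
          exact hbZ w (hcb (sphere_subset_closedBall hw))
        rw [hcongr]
        apply Real.circleAverage_mono
        · exact ContinuousOn.circleIntegrable hr.1.le
            (fun w hw => continuousWithinAt_const.min (hkks w hw))
        · exact hkks.circleIntegrable hr.1.le
        · intro w _
          exact min_le_right _ _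
    · obtain ⟨ρ, hρ, hρs⟩ := Metric.isOpen_iff.mp (Om_open hd) a ha
      refine ⟨ρ / 2, by linarith, (closedBall_subset_ball (by linarith)).trans hρs, ?_⟩
      intro r _
      rw [hbn a haZ]
      exact hle0 r
  -- u + b is an upper function
  have hupper : ∀ u ∈ UpperClass (Om S) f, (fun z => u z + (b z : EReal)) ∈
      UpperClass (Om S) f := by
    intro u hu
    obtain ⟨hu1, ⟨K, hK⟩, hu3⟩ := hu
    have huh : ∀ z ∈ Om S, (h z : EReal) ≤ u z := by
      intro z hz
      rw [← hup z hz]
      exact iInf₂_le u ⟨hu1, ⟨K, hK⟩, hu3⟩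
    have hge : ∀ z ∈ Om S, min (u z) (M : EReal) ≤ u z + (b z : EReal) := by
      intro z hz
      by_cases hzZ : z ∈ Z
      · rw [hbZ z hzZ]
        rcases le_total 0 (kk z) with h1 | h1
        · rw [min_eq_left h1]
          simp
        · rw [min_eq_right h1]
          have h2 : ((h z : ℝ) : EReal) + ((kk z : ℝ) : EReal) ≤ u z + (kk z : EReal) :=
            add_le_add (huh z hz) le_rfl
          have h3 : (M : EReal) ≤ ((h z : ℝ) : EReal) + ((kk z : ℝ) : EReal) := by
            rw [← EReal.coe_add]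
            have h4 := ph_nonneg (homim' z hzZ.1) hzZ.2.le
            have h5 : 0 ≤ C0 * ph (om z) := mul_nonneg hC0pos.le h4
            have h6 : M ≤ h z + kk z := by
              simp only [hkk]
              linarith
            exact_mod_cast h6
          exact (min_le_right _ _).trans (h3.trans h2)
      · rw [hbn z hzZ]
        simp
    refine ⟨hyper_add hu1 hK hbl hb0 hbm, ⟨min K M, ?_⟩, ?_⟩
    · intro z hz
      refine le_trans ?_ (hge z hz)
      apply le_min
      · exact le_trans (by exact_mod_cast min_le_left _ _) (hK z hz)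
      · exact_mod_cast min_le_right _ _
    · intro ζ hζ
      by_cases hζR : ‖ζ‖ < 2 * R
      · have hfζ : f ζ ≤ (M : EReal) := hf ζ ⟨by simpa using hζR, hζ⟩
        apply le_of_forall_lt
        intro c hc
        obtain ⟨c', hcc', hc'⟩ := exists_between hc
        refine hcc'.trans_le ?_
        apply le_liminf_of_le (by isBoundedDefault)
        have h1 : ∀ᶠ z in 𝓝[Om S] ζ, c' < u z :=
          eventually_lt_of_lt_liminf (hc'.trans_le (hu3 ζ hζ)) (by isBoundedDefault)
        filter_upwards [h1, self_mem_nhdsWithin] with z hz hzU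
        exact le_trans (le_min hz.le (hc'.le.trans hfζ)) (hge z hzU)
      · have h1 : (fun z => u z + (b z : EReal)) =ᶠ[𝓝[Om S] ζ] u := by
          apply mem_nhdsWithin_of_mem_nhds
          have h2 : ∀ᶠ z in 𝓝 ζ, R < ‖z‖ := by
            apply (isOpen_lt continuous_const continuous_norm).mem_nhds
            show R < ‖ζ‖
            push Not at hζR
            linarith
          filter_upwards [h2] with z hz
          have h3 : z ∉ Z := fun h => absurd (hZR' z h) (not_le.mpr hz)
          show u z + (b z : EReal) = u z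
          rw [hbn z h3]
          simp
        rw [liminf_congr h1]
        exact hu3 ζ hζ
  -- conclusion : b z0 ≥ 0
  have hom0 : ‖om z0‖ ≤ (R ^ 3 / 12) ^ k := by
    simp only [hom, norm_pow]
    apply pow_le_pow_left₀ (norm_nonneg _)
    rw [norm_div, Complex.norm_real, Real.norm_eq_abs, abs_of_pos hR, div_le_iff₀ hR]
    linarith [show R ^ 3 / 12 * R = R ^ 4 / 12 by ring]
  have hR3 : R ^ 3 ≤ 1 := pow_le_one₀ hR.le (by linarith)
  have hsmall : (R ^ 3 / 12) ^ k ≤ 1 / 12 := by
    have h1 : (R ^ 3 / 12) ^ k ≤ (R ^ 3 / 12) ^ 1 :=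
      pow_le_pow_of_le_one (by positivity) (by linarith) hκ1
    rw [pow_one] at h1
    linarith
  have hz0Z : z0 ∈ Z := by
    refine ⟨hi, ?_⟩
    have h1 := Complex.abs_re_le_norm (om z0)
    have h2 := (neg_le_abs _).trans (Complex.abs_im_le_norm (om z0))
    linarith
  have hbz0 : 0 ≤ b z0 := by
    by_contra hcon
    push Not at hcon
    have h1 := hup z0 hz0.2
    have h2 : upperPWB (Om S) f z0 < ((h z0 - b z0 : ℝ) : EReal) := by
      rw [h1]
      exact_mod_cast (by linarith : h z0 < h z0 - b z0)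
    unfold upperPWB at h2
    rw [iInf_lt_iff] at h2
    obtain ⟨u, h2⟩ := h2
    rw [iInf_lt_iff] at h2
    obtain ⟨hu, hlt⟩ := h2
    have h3 : (h z0 : EReal) ≤ u z0 + (b z0 : EReal) := by
      rw [← h1]
      exact iInf₂_le _ (hupper u hu)
    have hub : u z0 ≠ ⊥ := hu.1.2.1 z0 hz0.2
    have hut : u z0 ≠ ⊤ := ne_of_lt (hlt.trans (EReal.coe_lt_top _))
    obtain ⟨x, hx⟩ : ∃ x : ℝ, u z0 = (x : EReal) :=
      ⟨(u z0).toReal, (EReal.coe_toReal hut hub).symm⟩
    rw [hx] at h3 hlt
    have h4 : x < h z0 - b z0 := by exact_mod_cast hlt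
    have h5 : h z0 ≤ x + b z0 := by exact_mod_cast h3
    linarith
  rw [hbZ z0 hz0Z] at hbz0
  have hkk0 : 0 ≤ kk z0 := hbz0.trans (min_le_right _ _)
  have hph := ph_le (homim' z0 hi) (by linarith)
  simp only [hkk] at hkk0
  have hfin : C0 * ph (om z0) ≤ 3456 * C + 864 := by
    have h1 : C0 * ph (om z0) ≤ C0 * (864 * (R ^ 3 / 12) ^ k) :=
      mul_le_mul_of_nonneg_left (by linarith) hC0pos.le
    refine h1.trans ?_
    have h2 : C0 * (864 * (R ^ 3 / 12) ^ k) =
        3456 * C * (k ^ 2 * (1 / 4) ^ k) + 864 * (R ^ 3 / 12) ^ k := by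
      rw [hC0]
      have e1 : (R ^ 3 / 12) ^ k = R ^ (3 * k) * (1 / 3) ^ k * (1 / 4) ^ k := by
        rw [div_pow, ← pow_mul, mul_assoc, ← mul_pow, div_eq_mul_inv, ← inv_pow]
        norm_num
      have e2 : (3 : ℝ) ^ k * (1 / 3) ^ k = 1 := by
        rw [← mul_pow]
        norm_num
      have e3 : R ^ (3 * k) ≠ 0 := by positivity
      rw [e1]
      generalize hga : R ^ (3 * k) = a at e3
      generalize hgt : (3 : ℝ) ^ k = t at e2
      generalize hgu : (1 / 3 : ℝ) ^ k = u at e2
      generalize (1 / 4 : ℝ) ^ k = q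
      have e5 : (4 * (C * (k : ℝ) ^ 2 * t / a) + 1) * (864 * (a * u * q)) =
          3456 * C * ((k : ℝ) ^ 2 * q) * (t * u) + 864 * (a * u * q) := by
        field_simp
        ring
      rw [e5, e2, mul_one]
    rw [h2]
    have h3 : (k : ℝ) ^ 2 * (1 / 4) ^ k ≤ 1 := by
      have e4 : (k : ℝ) ≤ 2 ^ k := by exact_mod_cast (Nat.lt_two_pow_self (n := k)).le
      have e5 : (k : ℝ) ^ 2 ≤ (2 ^ k) ^ 2 := pow_le_pow_left₀ (Nat.cast_nonneg _) e4 2
      have e6 : ((2 : ℝ) ^ k) ^ 2 * (1 / 4) ^ k = 1 := by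
        rw [← pow_mul, mul_comm k 2, pow_mul, ← mul_pow]
        norm_num
      have e7 : (0 : ℝ) ≤ (1 / 4) ^ k := by positivity
      nlinarith
    have h4 : 3456 * C * (k ^ 2 * (1 / 4) ^ k) ≤ 3456 * C * 1 :=
      mul_le_mul_of_nonneg_left h3 (by positivity)
    linarith
  linarith


lemma exists_upper {U : Set ℂ} {f : ℂ → EReal} {z : ℂ} (hz : z ∈ U) {x : ℝ}
    (hx : upperPWB U f z = (x : EReal)) : ∃ u ∈ UpperClass U f, ∃ A : ℝ, u z = (A : EReal) := by
  have h2 : upperPWB U f z < ((x + 1 : ℝ) : EReal) := by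
    rw [hx]
    exact_mod_cast (by linarith : x < x + 1)
  unfold upperPWB at h2
  rw [iInf_lt_iff] at h2
  obtain ⟨u, h2⟩ := h2
  rw [iInf_lt_iff] at h2
  obtain ⟨hu, hlt⟩ := h2
  have hub : u z ≠ ⊥ := hu.1.2.1 z hz
  have hut : u z ≠ ⊤ := ne_of_lt (hlt.trans (EReal.coe_lt_top _))
  exact ⟨u, hu, (u z).toReal, (EReal.coe_toReal hut hub).symm⟩

lemma Om_BRegular (hd : Data S κ) : BRegular (Om S) 0 := by
  intro f h hfh ⟨R₀, hR₀, M₀, hM₀⟩
  obtain ⟨hh, hpwb⟩ := hfh
  have h10 : (10 : ℂ) ∈ Om S := Or.inl (mem_ball_self (by norm_num))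
  have hup : ∀ z ∈ Om S, upperPWB (Om S) f z = (h z : EReal) := fun z hz => (hpwb z hz).1
  have hlow : ∀ z ∈ Om S, upperPWB (Om S) (fun ζ => -f ζ) z = ((-h z : ℝ) : EReal) := by
    intro z hz
    have h1 := (hpwb z hz).2
    unfold lowerPWB at h1
    rw [← neg_neg (upperPWB (Om S) (fun ζ => -f ζ) z), h1, EReal.coe_neg]
  obtain ⟨u, hu, A, hA⟩ := exists_upper h10 (hup 10 h10)
  obtain ⟨u', hu', A', hA'⟩ := exists_upper h10 (hlow 10 h10)
  obtain ⟨K₁, hK₁⟩ := hu.2.1
  obtain ⟨K₂, hK₂⟩ := hu'.2.1
  set K : ℝ := |K₁| + |K₂| with hK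
  have hK0 : 0 ≤ K := by positivity
  have hKu : ∀ z ∈ Om S, ((-K : ℝ) : EReal) ≤ u z := fun z hz =>
    le_trans (by
      have : -K ≤ K₁ := by linarith [neg_abs_le K₁, abs_nonneg K₂]
      exact_mod_cast this) (hK₁ z hz)
  have hKu' : ∀ z ∈ Om S, ((-K : ℝ) : EReal) ≤ u' z := fun z hz =>
    le_trans (by
      have : -K ≤ K₂ := by linarith [neg_abs_le K₂, abs_nonneg K₁]
      exact_mod_cast this) (hK₂ z hz)
  have h1 : ∀ z ∈ Om S, (h z : EReal) ≤ u z := by
    intro z hz
    rw [← hup z hz]
    exact iInf₂_le u hu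
  have h2 : ∀ z ∈ Om S, ((-h z : ℝ) : EReal) ≤ u' z := by
    intro z hz
    rw [← hlow z hz]
    exact iInf₂_le u' hu'
  have hAK : -K ≤ A := by
    have := hKu 10 h10
    rw [hA] at this
    exact_mod_cast this
  have hAK' : -K ≤ A' := by
    have := hKu' 10 h10
    rw [hA'] at this
    exact_mod_cast this
  set C : ℝ := 155520 * (A + A' + 2 * K) with hC
  have hC0 : 0 ≤ C := by
    rw [hC]
    linarith
  have hest : ∀ i, ∀ z ∈ S i, ‖z‖ ≤ 1 / 2 →
      |h z| ≤ C * κ i ^ 2 * 3 ^ κ i / gg (κ i) z ^ 3 := by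
    intro i z hz hz2
    have h3 := h_estimate hd hh hu.1 hu'.1 hK0 hKu hKu' h1 h2 hA hA' i hz hz2
    have h4 : 155520 * (κ i : ℝ) ^ 2 * 3 ^ κ i * (A + A' + 2 * K) = C * κ i ^ 2 * 3 ^ κ i := by
      rw [hC]
      ring
    rw [h4] at h3
    exact h3
  set R : ℝ := min (R₀ / 2) (1 / 2) with hR
  have hRpos : 0 < R := lt_min (by linarith) (by norm_num)
  have hR1 : R ≤ 1 / 2 := min_le_right _ _
  have hR2 : 2 * R ≤ R₀ := by
    have : R ≤ R₀ / 2 := min_le_left _ _
    linarith
  have hM0 : 0 ≤ |M₀| := abs_nonneg _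
  refine ⟨R ^ 4 / 12, by positivity, |M₀| + (3456 * C + 864), ?_⟩
  intro z hz
  have b1 := one_sided hd hh hup hC0 hest hRpos hR1 hM0 (fun ζ hζ =>
    (hM₀ ζ ⟨ball_subset_ball hR2 hζ.1, hζ.2⟩).2.trans (by exact_mod_cast le_abs_self M₀)) z hz
  have hh' : InnerProductSpace.HarmonicOnNhd (fun z => -h z) (Om S) := by
    intro w hw
    have h3 := (hh w hw).const_smul (c := (-1 : ℝ))
    convert h3 using 2 with x
    simp
  have hest' : ∀ i, ∀ z ∈ S i, ‖z‖ ≤ 1 / 2 →
      |(fun z => -h z) z| ≤ C * κ i ^ 2 * 3 ^ κ i / gg (κ i) z ^ 3 := by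
    intro i z hz hz2
    simp only [abs_neg]
    exact hest i z hz hz2
  have b2 := one_sided hd hh' hlow hC0 hest' hRpos hR1 hM0 (fun ζ hζ => by
    have h3 := (hM₀ ζ ⟨ball_subset_ball hR2 hζ.1, hζ.2⟩).1
    have h4 : -f ζ ≤ (M₀ : EReal) := by
      rw [EReal.neg_le, ← EReal.coe_neg]
      exact h3
    exact h4.trans (by exact_mod_cast le_abs_self M₀)) z hz
  rw [abs_le]
  constructor <;> linarith

lemma hyper_of_harmonic {U : Set ℂ} (hU : IsOpen U) {h : ℂ → ℝ}
    (hh : InnerProductSpace.HarmonicOnNhd h U) : Hyperharmonic U (fun z => (h z : EReal)) := by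
  have hc : ContinuousOn h U := fun z hz => (hh z hz).1.continuousAt.continuousWithinAt
  refine ⟨?_, fun z _ => EReal.coe_ne_bot _, ?_⟩
  · apply ContinuousOn.lowerSemicontinuousOn
    exact continuous_coe_real_ereal.comp_continuousOn hc
  · intro a ha
    obtain ⟨ρ, hρ, hρs⟩ := Metric.isOpen_iff.mp hU a ha
    refine ⟨ρ / 2, by linarith, (closedBall_subset_ball (by linarith)).trans hρs, ?_⟩
    intro r hr N
    have hcb : closedBall a r ⊆ U := (closedBall_subset_ball (by linarith [hr.2])).trans hρs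
    have h1 : Real.circleAverage h a r = h a := by
      apply InnerProductSpace.HarmonicOnNhd.circleAverage_eq
      rw [abs_of_pos hr.1]
      exact fun w hw => hh w (hcb hw)
    have h2 : ∀ z, cut (fun z => (h z : EReal)) N z = min (h z) N := by
      intro z
      have h3 : ((cut (fun z => (h z : EReal)) N z : ℝ) : EReal) = ((min (h z) N : ℝ) : EReal) := by
        rw [coe_cut (EReal.coe_ne_bot _)]
        exact (EReal.coe_strictMono.monotone.map_min).symm
      exact_mod_cast h3
    have hs : ContinuousOn h (sphere a r) := hc.mono (sphere_subset_closedBall.trans hcb)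
    have h4 : Real.circleAverage (cut (fun z => (h z : EReal)) N) a r ≤ h a := by
      rw [← h1]
      have h5 : cut (fun z => (h z : EReal)) N = fun z => min (h z) N := funext h2
      rw [h5]
      apply Real.circleAverage_mono
      · exact ContinuousOn.circleIntegrable hr.1.le
          (fun w hw => (hs w hw).min continuousWithinAt_const)
      · exact hs.circleIntegrable hr.1.le
      · intro w _
        exact min_le_left _ _
    exact EReal.coe_le_coe_iff.mpr h4

lemma upper_add_nonneg {U : Set ℂ} (hUb : Bornology.IsBounded U) {f : ℂ → EReal}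
    {u u' : ℂ → EReal} (hu : u ∈ UpperClass U f) (hu' : u' ∈ UpperClass U (fun ζ => -f ζ))
    {z : ℂ} (hz : z ∈ U) : -u z ≤ u' z := by
  by_cases htop : u z = ⊤
  · rw [htop]
    simp
  obtain ⟨x, hx⟩ : ∃ x : ℝ, u z = (x : EReal) :=
    ⟨(u z).toReal, (EReal.coe_toReal htop (hu.1.2.1 z hz)).symm⟩
  obtain ⟨K₁, hK₁⟩ := hu.2.1
  obtain ⟨K₂, hK₂⟩ := hu'.2.1
  set K : ℝ := |K₁| + |K₂| with hK
  have hK0 : 0 ≤ K := by positivity
  have hKu : ∀ z ∈ U, ((-K : ℝ) : EReal) ≤ u z := fun z hz =>
    le_trans (by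
      have : -K ≤ K₁ := by linarith [neg_abs_le K₁, abs_nonneg K₂]
      exact_mod_cast this) (hK₁ z hz)
  have hKu' : ∀ z ∈ U, ((-K : ℝ) : EReal) ≤ u' z := fun z hz =>
    le_trans (by
      have : -K ≤ K₂ := by linarith [neg_abs_le K₂, abs_nonneg K₁]
      exact_mod_cast this) (hK₂ z hz)
  set N : ℝ := K + |x| + 1 with hN
  have hNK : K ≤ N := by linarith [abs_nonneg x]
  have hKN : -K ≤ N := by linarith
  have hs := (cut_supR hu.1 hKu hKN).add (cut_supR hu'.1 hKu' hKN)
  have key : ∀ ζ ∈ frontier U, ∀ ε > 0, ∀ᶠ z in 𝓝[U] ζ, -ε < cut u N z + cut u' N z := by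
    intro ζ hζ ε hε
    have hlim := hu.2.2 ζ hζ
    have hlim' : -f ζ ≤ liminf u' (𝓝[U] ζ) := hu'.2.2 ζ hζ
    -- passing from u to cut u
    have aux : ∀ w : ℂ → EReal, (∀ z ∈ U, w z ≠ ⊥) → ∀ c : ℝ, c < N →
        (c : EReal) < liminf w (𝓝[U] ζ) → ∀ᶠ z in 𝓝[U] ζ, c < cut w N z := by
      intro w hw c hc hcl
      have h1 : ∀ᶠ z in 𝓝[U] ζ, (c : EReal) < w z :=
        eventually_lt_of_lt_liminf hcl (by isBoundedDefault)
      filter_upwards [h1, self_mem_nhdsWithin] with z hz hzU
      have h2 : (c : EReal) < ((cut w N z : ℝ) : EReal) := by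
        rw [coe_cut (hw z hzU)]
        exact lt_min hz (by exact_mod_cast hc)
      exact_mod_cast h2
    have low : ∀ w : ℂ → EReal, (∀ z ∈ U, ((-K : ℝ) : EReal) ≤ w z) →
        ∀ᶠ z in 𝓝[U] ζ, -K ≤ cut w N z := by
      intro w hw
      filter_upwards [self_mem_nhdsWithin] with z hz
      exact cut_ge (hw z hz) hKN
    by_cases c1 : (N : EReal) ≤ f ζ
    · have h1 := aux u hu.1.2.1 (N - ε) (by linarith) (by
        refine lt_of_lt_of_le ?_ (c1.trans hlim)
        exact_mod_cast (by linarith : N - ε < N))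
      filter_upwards [h1, low u' hKu'] with z h2 h3
      linarith
    by_cases c2 : f ζ ≤ ((-N : ℝ) : EReal)
    · have h1 := aux u' hu'.1.2.1 (N - ε) (by linarith) (by
        have c3 : (N : EReal) ≤ -f ζ := by
          rw [EReal.le_neg, ← EReal.coe_neg]
          exact c2
        refine lt_of_lt_of_le ?_ (c3.trans hlim')
        exact_mod_cast (by linarith : N - ε < N))
      filter_upwards [h1, low u hKu] with z h2 h3
      linarith
    push Not at c1 c2
    obtain ⟨y, hy⟩ : ∃ y : ℝ, f ζ = (y : EReal) :=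
      ⟨(f ζ).toReal, (EReal.coe_toReal (ne_of_lt (c1.trans (EReal.coe_lt_top _)))
        (ne_of_gt ((EReal.bot_lt_coe _).trans c2))).symm⟩
    rw [hy] at c1 c2 hlim hlim'
    have c1' : y < N := by exact_mod_cast c1
    have c2' : -N < y := by exact_mod_cast c2
    have h1 := aux u hu.1.2.1 (y - ε / 2) (by linarith) (by
      refine lt_of_lt_of_le ?_ hlim
      exact_mod_cast (by linarith : y - ε / 2 < y))
    have h2 := aux u' hu'.1.2.1 (-y - ε / 2) (by linarith) (by
      refine lt_of_lt_of_le ?_ hlim'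
      rw [← EReal.coe_neg]
      exact_mod_cast (by linarith : -y - ε / 2 < -y))
    filter_upwards [h1, h2] with z h3 h4
    linarith
  have hmp := min_principle hUb hs key z hz
  have e1 : cut u N z = x := by
    have h1 : ((cut u N z : ℝ) : EReal) = (x : EReal) := by
      rw [coe_cut (hu.1.2.1 z hz), hx]
      apply min_eq_left
      have : x ≤ N := by linarith [le_abs_self x]
      exact_mod_cast this
    exact_mod_cast h1
  have e2 : ((cut u' N z : ℝ) : EReal) ≤ u' z := by
    rw [coe_cut (hu'.1.2.1 z hz)]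
    exact min_le_left _ _
  rw [e1] at hmp
  rw [hx, ← EReal.coe_neg]
  refine le_trans ?_ e2
  exact_mod_cast (by linarith : -x ≤ cut u' N z)

lemma lower_le_upper {U : Set ℂ} (hUb : Bornology.IsBounded U) {f : ℂ → EReal}
    {z : ℂ} (hz : z ∈ U) : lowerPWB U f z ≤ upperPWB U f z := by
  unfold lowerPWB upperPWB
  apply le_iInf₂
  intro u hu
  rw [EReal.neg_le]
  apply le_iInf₂
  intro u' hu'
  exact upper_add_nonneg hUb hu hu' hz

lemma gg_nonneg_closure (hd : Data S κ) (i : ℕ) (z : ℂ) :
    0 ≤ (S i).indicator (gg (κ i)) z := indicator_nonneg (fun z hz => (hd.pos i z hz).le) z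

lemma ind_continuous (hd : Data S κ) (i : ℕ) : Continuous ((S i).indicator (gg (κ i))) := by
  rw [continuous_iff_continuousAt]
  intro z
  by_cases hz : z ∈ S i
  · apply (gg_continuous (κ i)).continuousAt.congr
    filter_upwards [(hd.o i).mem_nhds hz] with w hw
    rw [indicator_of_mem hw]
  · by_cases hzc : z ∈ closure (S i)
    · have h0 := hd.fr i z hzc hz
      have h1 : Tendsto (fun w => |gg (κ i) w|) (𝓝 z) (𝓝 0) := by
        have := ((gg_continuous (κ i)).abs.tendsto z)
        simpa [h0] using this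
      show Tendsto _ _ (𝓝 ((S i).indicator (gg (κ i)) z))
      rw [indicator_of_notMem hz]
      apply squeeze_zero_norm _ h1
      intro w
      rw [Real.norm_eq_abs]
      by_cases hw : w ∈ S i
      · rw [indicator_of_mem hw]
      · rw [indicator_of_notMem hw]
        simp
    · have h1 : (S i).indicator (gg (κ i)) =ᶠ[𝓝 z] fun _ => (0 : ℝ) := by
        filter_upwards [isClosed_closure.isOpen_compl.mem_nhds hzc] with w hw
        exact indicator_of_notMem (fun h => hw (subset_closure h)) _
      exact continuousAt_const.congr h1.symm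

/-- The small domains are not B-regular. -/
lemma exists_bad (hd : Data S κ)
    (hp : ∀ i, ∀ t : ℝ, 0 < t → ∃ z ∈ S i, ‖z‖ = t ∧ gg (κ i) z = t ^ κ i)
    {ρ : ℝ} (hρ : 0 < ρ) (hρ1 : ρ ≤ 1) :
    ∃ f h : ℂ → ℝ, IsPWB (ball 0 ρ ∩ Om S) (fun ζ => (f ζ : EReal)) h ∧
      (∀ ζ ∈ ball 0 ρ, f ζ = 0) ∧
      ∀ r > 0, ∀ C : ℝ, ∃ z ∈ ball 0 r ∩ (ball 0 ρ ∩ Om S), C < h z := by
  set U : Set ℂ := ball 0 ρ ∩ Om S with hU
  have hUo : IsOpen U := isOpen_ball.inter (Om_open hd)
  have hUb : Bornology.IsBounded U := isBounded_ball.subset inter_subset_left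
  have hUS : ∀ z ∈ U, ∃ i, z ∈ S i := by
    intro z hz
    apply Om_near hz.2
    have : ‖z‖ < ρ := by simpa using hz.1
    linarith
  have hSU : ∀ i, ∀ z ∈ S i, ‖z‖ < ρ → z ∈ U := fun i z hz h =>
    ⟨by simpa using h, Om_sector i z hz (by linarith)⟩
  set c : ℕ → ℝ := fun i => ((i : ℝ) + 1) ^ (κ i + 1) with hc
  have hc0 : ∀ i, 0 < c i := fun i => by simp only [hc]; positivity
  set L : ℕ → ℂ → ℝ := fun i z => c i * (S i).indicator (gg (κ i)) z with hL
  have hLc : ∀ i, Continuous (L i) := fun i => by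
    have := ind_continuous hd i
    simp only [hL]
    fun_prop
  have hL0 : ∀ i z, 0 ≤ L i z := fun i z => mul_nonneg (hc0 i).le (gg_nonneg_closure hd i z)
  set G : ℂ → ℝ := fun z => ⨆ i, L i z with hG
  have hLS : ∀ i z, z ∈ S i → ∀ j, j ≠ i → L j z = 0 := by
    intro i z hz j hj
    simp only [hL]
    rw [indicator_of_notMem, mul_zero]
    exact fun h => (Set.disjoint_left.mp (hd.disj j i hj)) h hz
  have hLn : ∀ i z, z ∉ S i → L i z = 0 := by
    intro i z hz
    simp only [hL]
    rw [indicator_of_notMem hz, mul_zero]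
  have hGS : ∀ i z, z ∈ S i → G z = L i z := by
    intro i z hz
    simp only [hG]
    apply le_antisymm
    · apply ciSup_le
      intro j
      by_cases hj : j = i
      · rw [hj]
      · rw [hLS i z hz j hj]
        exact hL0 i z
    · apply le_ciSup (f := fun i => L i z) _ i
      refine ⟨L i z, ?_⟩
      rintro _ ⟨j, rfl⟩
      by_cases hj : j = i
      · rw [hj]
      · simp only
        rw [hLS i z hz j hj]
        exact hL0 i z
  have hGn : ∀ z, (∀ i, z ∉ S i) → G z = 0 := by
    intro z hz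
    simp only [hG]
    have : (fun i => L i z) = fun _ => (0 : ℝ) := funext fun i => hLn i z (hz i)
    rw [this]
    exact ciSup_const
  have hG0 : ∀ z, 0 ≤ G z := by
    intro z
    by_cases h : ∃ i, z ∈ S i
    · obtain ⟨i, hi⟩ := h
      rw [hGS i z hi]
      exact hL0 i z
    · push Not at h
      rw [hGn z h]
  have hLG : ∀ i z, L i z ≤ G z := by
    intro i z
    by_cases h : z ∈ S i
    · rw [hGS i z h]
    · rw [hLn i z h]
      exact hG0 z
  have hGnear : ∀ i z, z ∈ S i → G =ᶠ[𝓝 z] L i := by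
    intro i z hz
    filter_upwards [(hd.o i).mem_nhds hz] with w hw
    exact hGS i w hw
  have hLharm : ∀ i, InnerProductSpace.HarmonicOnNhd (L i) U := by
    intro i z hz
    obtain ⟨j, hj⟩ := hUS z hz
    by_cases hij : j = i
    · rw [hij] at hj
      have h1 : L i =ᶠ[𝓝 z] (c i • gg (κ i)) := by
        filter_upwards [(hd.o i).mem_nhds hj] with w hw
        simp [hL, indicator_of_mem hw]
      rw [InnerProductSpace.harmonicAt_congr_nhds h1]
      exact (gg_harmonic (κ i) univ z (mem_univ z)).const_smul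
    · have h1 : L i =ᶠ[𝓝 z] fun _ => (0 : ℝ) := by
        filter_upwards [(hd.o j).mem_nhds hj] with w hw
        exact hLS j w hw i (fun h => hij h.symm)
      rw [InnerProductSpace.harmonicAt_congr_nhds h1]
      exact (analyticAt_const (𝕜 := ℂ) (v := (0 : ℂ)) (x := z)).harmonicAt_re
  have hGharm : InnerProductSpace.HarmonicOnNhd G U := by
    intro z hz
    obtain ⟨i, hi⟩ := hUS z hz
    rw [InnerProductSpace.harmonicAt_congr_nhds (hGnear i z hi)]
    exact hLharm i z hz
  have hfrU : ∀ ζ ∈ frontier U, ζ ∉ U := fun ζ hζ h => by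
    rw [hUo.frontier_eq] at hζ
    exact hζ.2 h
  set fR : ℂ → ℝ := fun ζ => open Classical in if ‖ζ‖ < ρ then 0 else G ζ with hfR
  have hfR1 : ∀ ζ, ‖ζ‖ < ρ → fR ζ = 0 := fun ζ h => by simp [hfR, h]
  have hfR2 : ∀ ζ, ¬ ‖ζ‖ < ρ → fR ζ = G ζ := fun ζ h => by
    simp only [hfR]
    rw [if_neg h]
  set f : ℂ → EReal := fun ζ => (fR ζ : EReal) with hf
  have hf1 : ∀ ζ, ‖ζ‖ < ρ → f ζ = 0 := fun ζ h => by simp [hf, hfR1 ζ h]
  have hf2 : ∀ ζ, ¬ ‖ζ‖ < ρ → f ζ = (G ζ : EReal) := fun ζ h => by simp only [hf, hfR2 ζ h]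
  have hGupper : (fun z => (G z : EReal)) ∈ UpperClass U f := by
    refine ⟨hyper_of_harmonic hUo hGharm, ⟨0, fun z _ => EReal.coe_le_coe_iff.mpr (hG0 z)⟩, ?_⟩
    intro ζ hζ
    have hzero : (0 : EReal) ≤ liminf (fun z => (G z : EReal)) (𝓝[U] ζ) := by
      apply le_liminf_of_le (by isBoundedDefault)
      exact Eventually.of_forall fun z => EReal.coe_le_coe_iff.mpr (hG0 z)
    by_cases h1 : ‖ζ‖ < ρ
    · rw [hf1 ζ h1]
      exact hzero
    · rw [hf2 ζ h1]
      by_cases h2 : ∃ i, ζ ∈ S i
      · obtain ⟨i, hi⟩ := h2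
        have h3 : ContinuousAt (fun z => (G z : EReal)) ζ := by
          apply continuous_coe_real_ereal.continuousAt.comp
          exact (hLc i).continuousAt.congr (hGnear i ζ hi).symm
        have h4 : LowerSemicontinuousWithinAt (fun z => (G z : EReal)) U ζ :=
          h3.continuousWithinAt.lowerSemicontinuousWithinAt
        exact lowerSemicontinuousWithinAt_iff_le_liminf.mp h4
      · push Not at h2
        rw [hGn ζ h2]
        exact_mod_cast hzero
  have hLlower : ∀ i, (fun z => ((-L i z : ℝ) : EReal)) ∈ UpperClass U (fun ζ => -f ζ) := by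
    intro i
    refine ⟨hyper_of_harmonic hUo ?_, ⟨-c i, ?_⟩, ?_⟩
    · intro z hz
      have h1 := (hLharm i z hz).const_smul (c := (-1 : ℝ))
      convert h1 using 2 with x
      simp
    · intro z hz
      have h1 : L i z ≤ c i := by
        by_cases h : z ∈ S i
        · simp only [hL]
          rw [indicator_of_mem h]
          have h2 := gg_le (κ i) z
          have h3 : ‖z‖ ≤ 1 := by
            have : ‖z‖ < ρ := by simpa using hz.1
            linarith
          have h4 : ‖z‖ ^ κ i ≤ 1 := pow_le_one₀ (norm_nonneg _) h3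
          have := hc0 i
          nlinarith
        · rw [hLn i z h]
          exact (hc0 i).le
      exact EReal.coe_le_coe_iff.mpr (by linarith : -c i ≤ -L i z)
    · intro ζ hζ
      have h3 : ContinuousAt (fun z => ((-L i z : ℝ) : EReal)) ζ :=
        continuous_coe_real_ereal.continuousAt.comp (hLc i).neg.continuousAt
      have h4 : LowerSemicontinuousWithinAt (fun z => ((-L i z : ℝ) : EReal)) U ζ :=
        h3.continuousWithinAt.lowerSemicontinuousWithinAt
      refine le_trans ?_ (lowerSemicontinuousWithinAt_iff_le_liminf.mp h4)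
      rw [EReal.coe_neg, EReal.neg_le_neg_iff]
      by_cases h1 : ‖ζ‖ < ρ
      · rw [hf1 ζ h1]
        have h2 : ζ ∉ S i := fun h => hfrU ζ hζ (hSU i ζ h h1)
        rw [hLn i ζ h2]
        exact le_rfl
      · rw [hf2 ζ h1]
        exact_mod_cast hLG i ζ
  have hpwb : IsPWB U f G := by
    refine ⟨hGharm, ?_⟩
    intro z hz
    obtain ⟨i, hi⟩ := hUS z hz
    have h1 : upperPWB U f z ≤ (G z : EReal) := iInf₂_le _ hGupper
    have h2 : (G z : EReal) ≤ lowerPWB U f z := by
      unfold lowerPWB
      rw [EReal.le_neg]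
      have h3 : upperPWB U (fun ζ => -f ζ) z ≤ ((-L i z : ℝ) : EReal) := iInf₂_le _ (hLlower i)
      rw [hGS i z hi, ← EReal.coe_neg]
      exact h3
    have h3 := lower_le_upper hUb (f := f) hz
    exact ⟨le_antisymm h1 (h2.trans h3), le_antisymm (h3.trans h1) h2⟩
  refine ⟨fR, G, hpwb, fun ζ hζ => hfR1 ζ (by simpa using hζ), ?_⟩
  intro r hr C
  set t : ℝ := min r ρ / 2 with ht
  have ht0 : 0 < t := by
    rw [ht]
    have := lt_min hr hρ
    linarith
  have htr : t < r := by
    have := min_le_left r ρ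
    rw [ht]
    linarith
  have htρ : t < ρ := by
    have := min_le_right r ρ
    rw [ht]
    linarith
  obtain ⟨i, hi⟩ := exists_nat_gt (max (1 / t) C)
  obtain ⟨z, hz, hzn, hzg⟩ := hp i t ht0
  have hzU : z ∈ U := hSU i z hz (by rw [hzn]; exact htρ)
  refine ⟨z, ⟨by rw [mem_ball_zero_iff, hzn]; exact htr, hzU⟩, ?_⟩
  have h2 : G z = (i + 1) * ((i + 1) * t) ^ κ i := by
    rw [hGS i z hz]
    simp only [hL, hc]
    rw [indicator_of_mem hz, hzg, mul_pow]
    ring
  have h3 : 1 ≤ ((i : ℝ) + 1) * t := by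
    have h4 : 1 / t < i := (le_max_left _ _).trans_lt hi
    rw [div_lt_iff₀ ht0] at h4
    nlinarith
  have h4 : 1 ≤ (((i : ℝ) + 1) * t) ^ κ i := one_le_pow₀ h3
  have h5 : C < i := (le_max_right _ _).trans_lt hi
  have h6 : (i : ℝ) + 1 ≤ G z := by
    rw [h2]
    have : (0 : ℝ) ≤ (i : ℝ) + 1 := by positivity
    nlinarith
  linarith

/-- opening parameters of the sectors -/
def kap (i : ℕ) : ℕ := 2 ^ (i + 3)

/-- the sectors -/
def Sec (i : ℕ) : Set ℂ := {z | π / kap i < z.arg ∧ z.arg < 2 * π / kap i}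

lemma kap_ge (i : ℕ) : (8 : ℝ) ≤ kap i := by
  have h1 : 2 ^ 3 ≤ 2 ^ (i + 3) := Nat.pow_le_pow_right (by norm_num) (by omega)
  have h2 : 8 ≤ kap i := by
    unfold kap
    omega
  exact_mod_cast h2

lemma sec_arg {i : ℕ} {z : ℂ} (hz : z ∈ Sec i) : 0 < z.arg ∧ z.arg < π / 4 := by
  have hk := kap_ge i
  have hk0 : (0 : ℝ) < kap i := by linarith
  refine ⟨lt_trans (by positivity) hz.1, hz.2.trans_le ?_⟩
  rw [div_le_div_iff₀ hk0 (by norm_num)]
  nlinarith [Real.pi_pos]

lemma im_pow_arg (z : ℂ) (k : ℕ) : (z ^ k).im = ‖z‖ ^ k * Real.sin (k * z.arg) := by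
  have h1 : z ^ k = ((‖z‖ ^ k : ℝ) : ℂ) * Complex.exp (((k * z.arg : ℝ) : ℂ) * I) := by
    conv_lhs => rw [← Complex.norm_mul_exp_arg_mul_I z]
    rw [mul_pow, ← Complex.exp_nat_mul]
    push_cast
    ring_nf
  rw [h1, Complex.im_ofReal_mul, Complex.exp_ofReal_mul_I_im]

lemma sec_data : Data Sec kap := by
  refine ⟨?_, ?_, ?_, ?_, ?_, ?_⟩
  · intro i
    rw [isOpen_iff_mem_nhds]
    intro z hz
    have ha := sec_arg hz
    have hsl : z ∈ slitPlane := by
      rw [Complex.mem_slitPlane_iff_arg]
      constructor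
      · linarith [Real.pi_pos]
      · intro h
        rw [h, Complex.arg_zero] at ha
        exact lt_irrefl _ ha.1
    have hc := Complex.continuousAt_arg hsl
    exact hc.preimage_mem_nhds (Ioo_mem_nhds hz.1 hz.2)
  · intro i z hz
    have ha := sec_arg hz
    have hk := kap_ge i
    have hk0 : (0 : ℝ) < kap i := by linarith
    have hz0 : z ≠ 0 := by
      intro h
      rw [h, Complex.arg_zero] at ha
      exact lt_irrefl _ ha.1
    unfold gg
    rw [im_pow_arg]
    have h1 : π < kap i * z.arg := by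
      have := hz.1
      rw [div_lt_iff₀ hk0] at this
      linarith
    have h2 : kap i * z.arg < 2 * π := by
      have := hz.2
      rw [lt_div_iff₀ hk0] at this
      linarith
    have h3 : Real.sin (kap i * z.arg) < 0 := by
      have h4 : 0 < Real.sin (kap i * z.arg - π) :=
        Real.sin_pos_of_pos_of_lt_pi (by linarith) (by linarith)
      rw [Real.sin_sub_pi] at h4
      linarith
    have h4 : 0 < ‖z‖ ^ kap i := pow_pos (norm_pos_iff.mpr hz0) _
    nlinarith
  · intro i z hzc hz
    have hk := kap_ge i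
    have hk0 : (0 : ℝ) < kap i := by linarith
    unfold gg
    by_cases hz0 : z = 0
    · rw [hz0, zero_pow (by unfold kap; positivity)]
      simp
    have hre : 0 ≤ z.re := by
      have hcl : IsClosed {w : ℂ | 0 ≤ w.re} := isClosed_le continuous_const Complex.continuous_re
      refine closure_minimal (fun w hw => ?_) hcl hzc
      have ha := sec_arg hw
      show 0 ≤ w.re
      rw [← Complex.abs_arg_le_pi_div_two_iff, abs_of_pos ha.1]
      linarith
    have hsl : z ∈ slitPlane := by
      rw [Complex.mem_slitPlane_iff]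
      rcases hre.lt_or_eq with h | h
      · exact Or.inl h
      · right
        intro him
        exact hz0 (Complex.ext h.symm him)
    have hc := Complex.continuousAt_arg hsl
    have hcl : z.arg ∈ Icc (π / kap i) (2 * π / kap i) := by
      have h1 : z.arg ∈ closure (Ioo (π / (kap i : ℝ)) (2 * π / kap i)) := by
        rw [mem_closure_iff_frequently]
        have h2 : ∃ᶠ w in 𝓝 z, w ∈ Sec i := mem_closure_iff_frequently.mp hzc
        have h3 : ∃ᶠ w in 𝓝 z, Complex.arg w ∈ Ioo (π / (kap i : ℝ)) (2 * π / kap i) :=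
          h2.mono fun w hw => hw
        exact hc.frequently h3
      exact (closure_minimal Ioo_subset_Icc_self isClosed_Icc) h1
    rw [im_pow_arg]
    have hcase : z.arg = π / kap i ∨ z.arg = 2 * π / kap i := by
      rcases hcl.1.lt_or_eq with h | h
      · rcases hcl.2.lt_or_eq with h' | h'
        · exact absurd ⟨h, h'⟩ hz
        · exact Or.inr h'
      · exact Or.inl h.symm
    rcases hcase with h | h
    · rw [h, mul_div_cancel₀ _ hk0.ne', Real.sin_pi]
      simp
    · rw [h, mul_div_cancel₀ _ hk0.ne', Real.sin_two_pi]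
      simp
  · intro i j hij
    have key : ∀ i j : ℕ, i < j → Disjoint (Sec i) (Sec j) := by
      intro i j hij
      rw [Set.disjoint_left]
      intro z hz hz'
      have h1 : 2 * kap i ≤ kap j := by
        unfold kap
        have : 2 * 2 ^ (i + 3) = 2 ^ (i + 1 + 3) := by ring
        rw [this]
        exact Nat.pow_le_pow_right (by norm_num) (by omega)
      have h2 : (2 : ℝ) * kap i ≤ kap j := by exact_mod_cast h1
      have hk := kap_ge i
      have hk' := kap_ge j
      have h3 : 2 * π / kap j ≤ π / kap i := by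
        rw [div_le_div_iff₀ (by linarith) (by linarith)]
        nlinarith [Real.pi_pos]
      linarith [hz.1, hz'.2]
    rcases lt_or_gt_of_ne hij with h | h
    · exact key i j h
    · exact (key j i h).symm
  · intro i z hz h1 h2
    have ha := sec_arg hz
    have hz0 : z ≠ 0 := by
      intro h
      rw [h, Complex.arg_zero] at ha
      exact lt_irrefl _ ha.1
    have hcos : 7 / 10 ≤ Real.cos z.arg := by
      have h3 : Real.cos (π / 4) ≤ Real.cos z.arg :=
        Real.cos_le_cos_of_nonneg_of_le_pi ha.1.le (by linarith [Real.pi_pos]) ha.2.le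
      rw [Real.cos_pi_div_four] at h3
      have h4 : (14 / 10 : ℝ) ≤ √2 := by
        apply Real.le_sqrt_of_sq_le
        norm_num
      linarith
    have hre : 7 / 10 * ‖z‖ ≤ z.re := by
      rw [← Complex.norm_mul_cos_arg z]
      nlinarith [norm_nonneg z]
    rw [mem_ball, dist_eq_norm]
    have h5 : ‖z - 10‖ ^ 2 = ‖z‖ ^ 2 - 20 * z.re + 100 := by
      rw [← Complex.normSq_eq_norm_sq, ← Complex.normSq_eq_norm_sq, Complex.normSq_apply,
        Complex.normSq_apply]
      simp
      ring
    have h6 : ‖z - 10‖ ^ 2 < 9 ^ 2 := by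
      rw [h5]
      nlinarith
    exact lt_of_pow_lt_pow_left₀ 2 (by norm_num) h6
  · intro i
    unfold kap
    exact Nat.one_le_two_pow

lemma sec_point (i : ℕ) (t : ℝ) (ht : 0 < t) {s : ℝ} (hs1 : π / kap i < s) (hs2 : s < 2 * π / kap i) :
    (t : ℂ) * (Real.cos s + Real.sin s * I) ∈ Sec i ∧
    ‖(t : ℂ) * (Real.cos s + Real.sin s * I)‖ = t := by
  have hk := kap_ge i
  have hk0 : (0 : ℝ) < kap i := by linarith
  have h1 : 0 < π / kap i := by positivity
  have h2 : 2 * π / kap i ≤ π / 4 := by
    rw [div_le_div_iff₀ hk0 (by norm_num)]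
    nlinarith [Real.pi_pos]
  constructor
  · have h3 : Complex.arg ((t : ℂ) * (Real.cos s + Real.sin s * I)) = s := by
      have := Complex.arg_mul_cos_add_sin_mul_I ht (θ := s) ⟨by linarith [Real.pi_pos], by linarith [Real.pi_pos]⟩
      simpa using this
    exact ⟨by rw [h3]; exact hs1, by rw [h3]; exact hs2⟩
  · rw [norm_mul, Complex.norm_real, Real.norm_eq_abs, abs_of_pos ht]
    have : ‖(Real.cos s : ℂ) + Real.sin s * I‖ = 1 := by
      have h3 := Complex.norm_cos_add_sin_mul_I s
      rwa [← Complex.ofReal_cos, ← Complex.ofReal_sin] at h3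
    rw [this, mul_one]

lemma sec_exists (i : ℕ) (t : ℝ) (ht : 0 < t) :
    ∃ z ∈ Sec i, ‖z‖ = t ∧ gg (kap i) z = t ^ kap i := by
  have hk := kap_ge i
  have hk0 : (0 : ℝ) < kap i := by linarith
  set s : ℝ := 3 * π / 2 / kap i with hs
  have hs1 : π / kap i < s := by
    rw [hs]
    apply div_lt_div_of_pos_right _ hk0
    linarith [Real.pi_pos]
  have hs2 : s < 2 * π / kap i := by
    rw [hs]
    apply div_lt_div_of_pos_right _ hk0
    linarith [Real.pi_pos]
  obtain ⟨h1, h2⟩ := sec_point i t ht hs1 hs2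
  refine ⟨_, h1, h2, ?_⟩
  unfold gg
  rw [im_pow_arg, h2]
  have h3 : Complex.arg ((t : ℂ) * (Real.cos s + Real.sin s * I)) = s := by
    have h4 : s ≤ π / 4 := by
      have := sec_arg h1
      have h2 : 2 * π / kap i ≤ π / 4 := by
        rw [div_le_div_iff₀ hk0 (by norm_num)]
        nlinarith [Real.pi_pos]
      linarith
    have h5 : 0 < s := by rw [hs]; positivity
    have := Complex.arg_mul_cos_add_sin_mul_I ht (θ := s) ⟨by linarith [Real.pi_pos], by linarith [Real.pi_pos]⟩
    simpa using this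
  rw [h3, hs, mul_div_cancel₀ _ hk0.ne']
  have h6 : Real.sin (3 * π / 2) = -1 := by
    have : 3 * π / 2 = π / 2 + π := by ring
    rw [this, Real.sin_add_pi, Real.sin_pi_div_two]
  rw [h6]
  ring

lemma zero_frontier : (0 : ℂ) ∈ frontier (Om Sec) := by
  rw [(Om_open sec_data).frontier_eq]
  constructor
  · rw [Metric.mem_closure_iff]
    intro ε hε
    obtain ⟨z, hz, hzn, _⟩ := sec_exists 0 (min (ε / 2) 1) (lt_min (by linarith) one_pos)
    refine ⟨z, Om_sector 0 z hz ?_, ?_⟩
    · rw [hzn]
      exact (min_le_right _ _).trans_lt (by norm_num)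
    · rw [dist_zero_left, hzn]
      exact (min_le_left _ _).trans_lt (by linarith)
  · rintro (h | h)
    · rw [mem_ball, dist_eq_norm] at h
      simp at h
      norm_num at h
    · obtain ⟨i, hi⟩ := mem_iUnion.mp h
      have := (sec_arg hi.1).1
      rw [Complex.arg_zero] at this
      exact lt_irrefl _ this

lemma Om_connected : IsConnected (Om Sec) := by
  have h10 : (10 : ℂ) ∈ ball (10 : ℂ) 9 := mem_ball_self (by norm_num)
  refine ⟨⟨10, Or.inl h10⟩, ?_⟩
  have h1 : Om Sec = ⋃ i, (ball (10 : ℂ) 9 ∪ (Sec i ∩ ball 0 3)) := by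
    unfold Om
    rw [union_iUnion]
  rw [h1]
  apply isPreconnected_iUnion
  · exact ⟨10, mem_iInter.mpr fun i => Or.inl h10⟩
  · intro i
    have hk := kap_ge i
    have hk0 : (0 : ℝ) < kap i := by linarith
    have himg : Sec i ∩ ball 0 3 = (fun p : ℝ × ℝ => (p.1 : ℂ) * (Real.cos p.2 + Real.sin p.2 * I)) ''
        (Ioo 0 3 ×ˢ Ioo (π / kap i) (2 * π / kap i)) := by
      ext z
      constructor
      · rintro ⟨hz, hz3⟩
        have hz0 : z ≠ 0 := by
          intro h
          have ha := (sec_arg hz).1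
          rw [h, Complex.arg_zero] at ha
          exact lt_irrefl _ ha
        refine ⟨(‖z‖, z.arg), ⟨⟨norm_pos_iff.mpr hz0, by simpa using hz3⟩, hz⟩, ?_⟩
        have h4 := Complex.norm_mul_cos_add_sin_mul_I z
        rwa [← Complex.ofReal_cos, ← Complex.ofReal_sin] at h4
      · rintro ⟨⟨t, s⟩, ⟨⟨ht0, ht3⟩, hs1, hs2⟩, rfl⟩
        obtain ⟨h2, h3⟩ := sec_point i t ht0 hs1 hs2
        exact ⟨h2, by rw [mem_ball_zero_iff]; simp only; rw [h3]; exact ht3⟩
    have hpre : IsPreconnected (Sec i ∩ ball 0 3) := by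
      rw [himg]
      apply IsPreconnected.image
      · exact isPreconnected_Ioo.prod isPreconnected_Ioo
      · fun_prop
    obtain ⟨z, hz, hzn, _⟩ := sec_exists i 2 (by norm_num)
    apply IsPreconnected.union z
    · exact sec_data.far i z hz (by rw [hzn]; norm_num) (by rw [hzn]; norm_num)
    · exact ⟨hz, by rw [mem_ball_zero_iff, hzn]; norm_num⟩
    · exact (convex_ball _ _).isPreconnected
    · exact hpre

/-- There is a bounded domain `Ω` in the plane with a boundary point `y` that is `B`-regular and not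
`lB`-regular for `Ω`. Moreover, for every `ρ ∈ (0, 1]` there is a finite resolutive function on the
boundary of `B(ρ) ∩ Ω`, vanishing in `B(ρ)`, whose PWB solution is unbounded near `y`. -/
theorem result : ∃ (Ω : Set ℂ) (y : ℂ), IsOpen Ω ∧ IsConnected Ω ∧ Bornology.IsBounded Ω ∧
    y ∈ frontier Ω ∧ BRegular Ω y ∧ ¬ LBRegular Ω y ∧
    ∀ ρ : ℝ, 0 < ρ → ρ ≤ 1 → ∃ f h : ℂ → ℝ,
      IsPWB (ball y ρ ∩ Ω) (fun ζ => (f ζ : EReal)) h ∧ (∀ ζ ∈ ball y ρ, f ζ = 0) ∧
      ∀ r > 0, ∀ C : ℝ, ∃ z ∈ ball y r ∩ (ball y ρ ∩ Ω), C < h z := by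
  refine ⟨Om Sec, 0, Om_open sec_data, Om_connected, Om_bdd, zero_frontier,
    Om_BRegular sec_data, ?_, fun ρ hρ hρ1 => exists_bad sec_data sec_exists hρ hρ1⟩
  rintro ⟨r, hr, hlim, hreg⟩
  obtain ⟨m, hm⟩ := (hlim.eventually (gt_mem_nhds (one_pos : (0 : ℝ) < 1))).exists
  obtain ⟨f, h, h1, h2, h3⟩ := exists_bad sec_data sec_exists (hr m) hm.le
  obtain ⟨s, hs, C, hC⟩ := hreg m _ h h1 ⟨r m, hr m, 0, fun ζ hζ => by
    rw [h2 ζ hζ.1]
    simp⟩
  obtain ⟨z, hz, hlt⟩ := h3 s hs C
  have h4 := hC z hz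
  linarith [le_abs_self (h z)]

end Pool.Agent.Results.MP_1ca924_an.Main
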